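import Pool.Agent.R192.LM.Test

set_option autoImplicit false
set_option linter.all false

namespace Pool.Agent.R192.LM

universe u

open Br

/-- The number of nodes both of whose branches have at least `k` leaves. -/
def N (k : ℕ) : Br → ℕ
  | .leaf => 0
  | .node l r => N k l + N k r + (if k ≤ l.deg ∧ k ≤ r.deg then 1 else 0)

variable {ι : Type} [DecidableEq ι]

/-- A rooted forest structure on the complement of the set `Z` of centres. -/
structure Fst (ι : Type) [DecidableEq ι] (Z : Finset ι) where
  par : ι → ι
  desc : ι → Finset ι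
  rk : ι → ℕ
  self_mem : ∀ i, i ∈ desc i
  desc_par : ∀ i y, i ∉ Z → y ∉ Z → par i ∈ desc y → i ∈ desc y
  rk_lt : ∀ i, i ∉ Z → rk (par i) < rk i

section

variable {Z : Finset ι} (T : Fst ι Z)

def pure (t : LT ι) : Prop := Disjoint t.supp Z

open Classical in
/-- non centre-centre nodes with both sides at least `k` -/
noncomputable def cn (Z : Finset ι) (k : ℕ) : LT ι → ℕ
  | .leaf _ => 0
  | .node u v => cn Z k u + cn Z k v +
      (if (k ≤ u.supp.card ∧ k ≤ v.supp.card) ∧ (Disjoint u.supp Z ∨ Disjoint v.supp Z)
        then 1 else 0)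

def fk (k : ℕ) (X : Finset ι) : ℕ :=
  (X.filter (fun y => y ∉ Z ∧ k ≤ (T.desc y ∩ X).card)).card

lemma fk_union (k : ℕ) {X Y : Finset ι} (h : Disjoint X Y) :
    fk T k X + fk T k Y ≤ fk T k (X ∪ Y) := by
  simp only [fk]
  rw [← Finset.card_union_of_disjoint]
  · apply Finset.card_le_card
    intro y hy
    simp only [Finset.mem_union, Finset.mem_filter] at hy ⊢
    rcases hy with ⟨h1, h2, h3⟩ | ⟨h1, h2, h3⟩
    · exact ⟨Or.inl h1, h2, h3.trans (Finset.card_le_card
        (Finset.inter_subset_inter_left Finset.subset_union_left))⟩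
    · exact ⟨Or.inr h1, h2, h3.trans (Finset.card_le_card
        (Finset.inter_subset_inter_left Finset.subset_union_right))⟩
  · exact Finset.disjoint_filter_filter h

variable {w : ι → ι → ℤ}

def Adj (w : ι → ι → ℤ) : Prop := ∀ i k, w i k ≠ 0 → i ∈ Z ∨ k ∈ Z ∨ T.par i = k ∨ T.par k = i

lemma exists_adj {P Q : Finset ι} (h : lk w P Q ≠ 0) : ∃ i ∈ P, ∃ k ∈ Q, w i k ≠ 0 := by
  by_contra hc
  push Not at hc
  apply h
  simp only [lk]
  exact Finset.sum_eq_zero fun i hi => Finset.sum_eq_zero fun k hk => hc i hi k hk

lemma conn (hA : Adj T w) (t : LT ι) (ht : t.Good w) (hp : Disjoint t.supp Z) :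
    ∃ x ∈ t.supp, ∀ i ∈ t.supp, i ≠ x → T.par i ∈ t.supp := by
  induction t with
  | leaf i =>
    refine ⟨i, by simp [LT.supp], fun j hj hne => ?_⟩
    simp only [LT.supp, Finset.mem_singleton] at hj
    exact absurd hj hne
  | node u v hu hv =>
    obtain ⟨gu, gv, hd, hl⟩ := ht
    simp only [LT.supp] at hp ⊢
    rw [Finset.disjoint_union_left] at hp
    obtain ⟨x, hx, hx'⟩ := hu gu hp.1
    obtain ⟨y, hy, hy'⟩ := hv gv hp.2
    obtain ⟨i, hi, k, hk, hik⟩ := exists_adj hl
    have h1 : i ∉ Z := fun h => (Finset.disjoint_left.1 hp.1 hi) h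
    have h2 : k ∉ Z := fun h => (Finset.disjoint_left.1 hp.2 hk) h
    rcases hA i k hik with h | h | h | h
    · exact absurd h h1
    · exact absurd h h2
    · have hix : i = x := by
        by_contra hne
        exact (Finset.disjoint_left.1 hd (hx' i hi hne)) (h ▸ hk)
      refine ⟨y, Finset.mem_union_right _ hy, fun j hj hne => ?_⟩
      rw [Finset.mem_union] at hj ⊢
      rcases hj with hj | hj
      · by_cases hjx : j = x
        · right; rw [hjx, ← hix, h]; exact hk
        · left; exact hx' j hj hjx
      · right; exact hy' j hj hne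
    · have hky : k = y := by
        by_contra hne
        exact (Finset.disjoint_left.1 hd (h ▸ hi : T.par k ∈ u.supp)) (hy' k hk hne)
      refine ⟨x, Finset.mem_union_left _ hx, fun j hj hne => ?_⟩
      rw [Finset.mem_union] at hj ⊢
      rcases hj with hj | hj
      · left; exact hx' j hj hne
      · by_cases hjy : j = y
        · left; rw [hjy, ← hky, h]; exact hi
        · right; exact hy' j hj hjy

lemma top_desc {X : Finset ι} (hp : Disjoint X Z) {x : ι} (hx : x ∈ X)
    (h : ∀ i ∈ X, i ≠ x → T.par i ∈ X) : ∀ n, ∀ i ∈ X, T.rk i ≤ n → i ∈ T.desc x := by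
  intro n
  induction n with
  | zero =>
    intro i hi hn
    by_cases hix : i = x
    · rw [hix]; exact T.self_mem x
    · have := T.rk_lt i (fun hz => Finset.disjoint_left.1 hp hi hz)
      omega
  | succ n ih =>
    intro i hi hn
    by_cases hix : i = x
    · rw [hix]; exact T.self_mem x
    · have h1 : i ∉ Z := fun hz => Finset.disjoint_left.1 hp hi hz
      have h2 : x ∉ Z := fun hz => Finset.disjoint_left.1 hp hx hz
      have := T.rk_lt i h1
      exact T.desc_par i x h1 h2 (ih _ (h i hi hix) (by omega))

lemma one_le_fk (k : ℕ) {X : Finset ι} (hp : Disjoint X Z) {x : ι} (hx : x ∈ X)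
    (h : ∀ i ∈ X, i ≠ x → T.par i ∈ X) (hk : k ≤ X.card) : 1 ≤ fk T k X := by
  simp only [fk]
  rw [Nat.one_le_iff_ne_zero, ← Nat.pos_iff_ne_zero, Finset.card_pos]
  refine ⟨x, Finset.mem_filter.2 ⟨hx, fun hz => Finset.disjoint_left.1 hp hx hz, ?_⟩⟩
  have : T.desc x ∩ X = X := by
    rw [Finset.inter_eq_right]
    intro i hi
    exact top_desc T hp hx h _ i hi le_rfl
  rw [this]
  exact hk

open Classical in
/-- the counting lemma -/
lemma count (hA : Adj T w) (k : ℕ) (t : LT ι) (ht : t.Good w) :
    cn Z k t + (if Disjoint t.supp Z ∧ k ≤ t.supp.card then 1 else 0) ≤ fk T k t.supp := by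
  induction t with
  | leaf i =>
    simp only [cn, zero_add]
    split_ifs with h
    · obtain ⟨x, hx, hx'⟩ := conn T hA (.leaf i) ht h.1
      exact one_le_fk T k h.1 hx hx' h.2
    · exact Nat.zero_le _
  | node u v hu hv =>
    have ht0 := ht
    obtain ⟨gu, gv, hd, hl⟩ := ht
    have iu := hu gu
    have iv := hv gv
    have hf := fk_union T k hd
    have hs : (LT.node u v).supp = u.supp ∪ v.supp := rfl
    rw [hs]
    simp only [cn, Finset.disjoint_union_left, Finset.card_union_of_disjoint hd]
    by_cases hpu : Disjoint u.supp Z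
    · by_cases hpv : Disjoint v.supp Z
      · -- both pure
        by_cases hku : k ≤ u.supp.card
        · by_cases hkv : k ≤ v.supp.card
          · rw [if_pos ⟨hpu, hku⟩] at iu
            rw [if_pos ⟨hpv, hkv⟩] at iv
            rw [if_pos ⟨⟨hku, hkv⟩, Or.inl hpu⟩, if_pos ⟨⟨hpu, hpv⟩, by omega⟩]
            omega
          · rw [if_pos ⟨hpu, hku⟩] at iu
            rw [if_neg (fun h => hkv h.2)] at iv
            rw [if_neg (fun h => hkv h.1.2), if_pos ⟨⟨hpu, hpv⟩, by omega⟩]
            omega
        · by_cases hkv : k ≤ v.supp.card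
          · rw [if_neg (fun h => hku h.2)] at iu
            rw [if_pos ⟨hpv, hkv⟩] at iv
            rw [if_neg (fun h => hku h.1.1), if_pos ⟨⟨hpu, hpv⟩, by omega⟩]
            omega
          · rw [if_neg (fun h => hku h.1.1)]
            by_cases hk : k ≤ u.supp.card + v.supp.card
            · rw [if_pos ⟨⟨hpu, hpv⟩, hk⟩]
              -- counts of u and v are zero
              have z : ∀ s : LT ι, s.Good w → s.supp.card < k → cn Z k s = 0 := by
                intro s
                induction s with
                | leaf i => intro _ _; rfl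
                | node a b ha hb =>
                  intro g hlt
                  obtain ⟨ga, gb, hd', _⟩ := g
                  have hs' : (LT.node a b).supp = a.supp ∪ b.supp := rfl
                  rw [hs', Finset.card_union_of_disjoint hd'] at hlt
                  simp only [cn]
                  rw [ha ga (by omega), hb gb (by omega), if_neg (by omega)]
              rw [z u gu (by omega), z v gv (by omega)]
              obtain ⟨x, hx, hx'⟩ := conn T hA (.node u v) ht0
                (by rw [hs, Finset.disjoint_union_left]; exact ⟨hpu, hpv⟩)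
              rw [hs] at hx hx'
              have := one_le_fk T k (by rw [Finset.disjoint_union_left]; exact ⟨hpu, hpv⟩) hx hx'
                (by rw [Finset.card_union_of_disjoint hd]; exact hk)
              omega
            · rw [if_neg (fun h => hk h.2)]
              omega
      · -- u pure, v not
        rw [if_neg (show ¬ ((Disjoint u.supp Z ∧ Disjoint v.supp Z) ∧
          k ≤ u.supp.card + v.supp.card) from fun h => hpv h.1.2)]
        rw [if_neg (show ¬ (Disjoint v.supp Z ∧ k ≤ v.supp.card) from fun h => hpv h.1)] at iv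
        by_cases hku : k ≤ u.supp.card
        · rw [if_pos ⟨hpu, hku⟩] at iu
          split_ifs <;> omega
        · rw [if_neg (show ¬ ((k ≤ u.supp.card ∧ k ≤ v.supp.card) ∧
            (Disjoint u.supp Z ∨ Disjoint v.supp Z)) from fun h => hku h.1.1)]
          omega
    · by_cases hpv : Disjoint v.supp Z
      · rw [if_neg (show ¬ ((Disjoint u.supp Z ∧ Disjoint v.supp Z) ∧
          k ≤ u.supp.card + v.supp.card) from fun h => hpu h.1.1)]
        rw [if_neg (show ¬ (Disjoint u.supp Z ∧ k ≤ u.supp.card) from fun h => hpu h.1)] at iu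
        by_cases hkv : k ≤ v.supp.card
        · rw [if_pos ⟨hpv, hkv⟩] at iv
          split_ifs <;> omega
        · rw [if_neg (show ¬ ((k ≤ u.supp.card ∧ k ≤ v.supp.card) ∧
            (Disjoint u.supp Z ∨ Disjoint v.supp Z)) from fun h => hkv h.1.2)]
          omega
      · rw [if_neg (show ¬ ((k ≤ u.supp.card ∧ k ≤ v.supp.card) ∧
            (Disjoint u.supp Z ∨ Disjoint v.supp Z)) from fun h => h.2.elim hpu hpv),
          if_neg (show ¬ ((Disjoint u.supp Z ∧ Disjoint v.supp Z) ∧
          k ≤ u.supp.card + v.supp.card) from fun h => hpu h.1.1)]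
        omega

open Classical in
lemma cn_eq (k : ℕ) (t : LT ι) (ht : t.Good w) (h : (t.supp ∩ Z).card ≤ 1) :
    cn Z k t = N k t.shape := by
  induction t with
  | leaf i => rfl
  | node u v hu hv =>
    obtain ⟨gu, gv, hd, hl⟩ := ht
    have hs : (LT.node u v).supp = u.supp ∪ v.supp := rfl
    rw [hs, Finset.union_inter_distrib_right, Finset.card_union_of_disjoint
      (hd.mono Finset.inter_subset_left Finset.inter_subset_left)] at h
    simp only [cn, LT.shape, N]
    rw [hu gu (by omega), hv gv (by omega), supp_card w u gu, supp_card w v gv]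
    have : Disjoint u.supp Z ∨ Disjoint v.supp Z := by
      rw [Finset.disjoint_iff_inter_eq_empty, Finset.disjoint_iff_inter_eq_empty,
        ← Finset.card_eq_zero, ← Finset.card_eq_zero]
      omega
    simp only [this, and_true]

end

end Pool.Agent.R192.LM
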