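import Pool.Agent.R192.LM.Tree

set_option autoImplicit false
set_option linter.all false

namespace Pool.Agent.R192.LM

universe u

open Br

section two

variable {ι κ : Type} [DecidableEq ι] [Fintype ι] [DecidableEq κ] [Fintype κ]

def tot (S : St ι) (a : ι) : ℤ := ∑ a', S.w a a'

def al (S : St ι) (T : St κ) : ℤ := 1 - tot S S.c - ∑ b, (if b = T.c then 0 else tot T b)

def cross (S : St ι) (T : St κ) (a : ι) (b : κ) : ℤ :=
  if a = S.c then (if b = T.c then al S T else tot T b) else (if b = T.c then - tot S a else 0)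

def w2 (S : St ι) (T : St κ) : ι ⊕ κ → ι ⊕ κ → ℤ
  | .inl a, .inl a' => S.w a a'
  | .inl a, .inr b => cross S T a b
  | .inr b, .inl a => - cross S T a b
  | .inr b, .inr b' => T.w b b'

variable (S : St ι) (T : St κ)

lemma w2_anti (i k : ι ⊕ κ) : w2 S T k i = - w2 S T i k := by
  rcases i with a | b <;> rcases k with a' | b'
  · exact S.w_anti a a'
  · rfl
  · exact (neg_neg _).symm
  · exact T.w_anti b b'

lemma tot_l {a : ι} (h : a ≠ S.c) : ∑ k, w2 S T (.inl a) k = 0 := by
  rw [Fintype.sum_sum_type]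
  have h1 : ∑ b, w2 S T (.inl a) (.inr b) = - tot S a := by
    have : ∀ b, w2 S T (.inl a) (.inr b) = if b = T.c then - tot S a else 0 := by
      intro b; simp only [w2, cross, if_neg h]
    simp only [this]
    rw [Finset.sum_ite_eq' Finset.univ T.c, if_pos (Finset.mem_univ _)]
  rw [h1]
  simp only [w2, tot]
  ring

lemma tot_r {b : κ} (h : b ≠ T.c) : ∑ k, w2 S T (.inr b) k = 0 := by
  rw [Fintype.sum_sum_type]
  have h1 : ∑ a, w2 S T (.inr b) (.inl a) = - tot T b := by
    have : ∀ a, w2 S T (.inr b) (.inl a) = if a = S.c then - tot T b else 0 := by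
      intro a
      simp only [w2, cross, if_neg h]
      split_ifs <;> simp
    simp only [this]
    rw [Finset.sum_ite_eq' Finset.univ S.c, if_pos (Finset.mem_univ _)]
  rw [h1]
  simp only [w2, tot]
  ring

lemma tot_c : ∑ k, w2 S T (.inl S.c) k = 1 := by
  rw [Fintype.sum_sum_type]
  have h1 : ∑ b, w2 S T (.inl S.c) (.inr b) =
      al S T + ∑ b, (if b = T.c then 0 else tot T b) := by
    have : ∀ b, w2 S T (.inl S.c) (.inr b) =
        (if b = T.c then al S T else 0) + (if b = T.c then 0 else tot T b) := by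
      intro b
      simp only [w2, cross, if_true]
      split_ifs <;> simp
    simp only [this]
    rw [Finset.sum_add_distrib, Finset.sum_ite_eq' Finset.univ T.c, if_pos (Finset.mem_univ _)]
  rw [h1]
  simp only [w2, tot, al]
  ring

lemma sum0 {W : Finset (ι ⊕ κ)} (h1 : Sum.inl S.c ∉ W) (h2 : Sum.inr T.c ∉ W) :
    ∑ i ∈ W, ∑ k, w2 S T i k = 0 := by
  refine Finset.sum_eq_zero fun i hi => ?_
  rcases i with a | b
  · exact tot_l S T (fun e => h1 (e ▸ hi))
  · exact tot_r S T (fun e => h2 (e ▸ hi))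

def F2 : Fst (ι ⊕ κ) {Sum.inl S.c, Sum.inr T.c} where
  par := Sum.map S.par T.par
  desc := Sum.elim (fun a => (S.desc a).image Sum.inl) (fun b => (T.desc b).image Sum.inr)
  rk := Sum.elim S.rk T.rk
  self_mem := by
    rintro (a | b)
    · exact Finset.mem_image_of_mem _ (S.self_mem a)
    · exact Finset.mem_image_of_mem _ (T.self_mem b)
  desc_par := by
    rintro (a | b) (a' | b') hi hy hm
    · have ha : a ≠ S.c := fun e => hi (by rw [e]; simp)
      simp only [Sum.map_inl, Sum.elim_inl] at hm ⊢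
      obtain ⟨c, hc, e⟩ := Finset.mem_image.1 hm
      rw [Sum.inl.inj e] at hc
      exact Finset.mem_image_of_mem _ (S.desc_par a a' ha hc)
    · simp only [Sum.map_inl, Sum.elim_inr] at hm
      obtain ⟨c, hc, e⟩ := Finset.mem_image.1 hm
      cases e
    · simp only [Sum.map_inr, Sum.elim_inl] at hm
      obtain ⟨c, hc, e⟩ := Finset.mem_image.1 hm
      cases e
    · have hb : b ≠ T.c := fun e => hi (by rw [e]; simp)
      simp only [Sum.map_inr, Sum.elim_inr] at hm ⊢
      obtain ⟨c, hc, e⟩ := Finset.mem_image.1 hm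
      rw [Sum.inr.inj e] at hc
      exact Finset.mem_image_of_mem _ (T.desc_par b b' hb hc)
  rk_lt := by
    rintro (a | b) hi
    · have ha : a ≠ S.c := fun e => hi (by rw [e]; simp)
      exact S.rk_lt a ha
    · have hb : b ≠ T.c := fun e => hi (by rw [e]; simp)
      exact T.rk_lt b hb

lemma adj2 : Adj (F2 S T) (w2 S T) := by
  rintro (a | b) (a' | b') h
  · right; right
    rcases S.w_ne h with e | e
    · left; show Sum.inl (S.par a) = Sum.inl a'; rw [e]
    · right; show Sum.inl (S.par a') = Sum.inl a; rw [e]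
  · by_cases ha : a = S.c
    · left; rw [ha]; simp
    · by_cases hb : b' = T.c
      · right; left; rw [hb]; simp
      · exact absurd (by simp only [w2, cross, if_neg ha, if_neg hb]) h
  · by_cases ha : a' = S.c
    · right; left; rw [ha]; simp
    · by_cases hb : b = T.c
      · left; rw [hb]; simp
      · exact absurd (by simp only [w2, cross, if_neg ha, if_neg hb, neg_zero]) h
  · right; right
    rcases T.w_ne h with e | e
    · left; show Sum.inr (T.par b) = Sum.inr b'; rw [e]
    · right; show Sum.inr (T.par b') = Sum.inr b; rw [e]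

lemma fk_two (k : ℕ) : fk (F2 S T) k Finset.univ ≤ S.D k + T.D k := by
  simp only [fk, St.D, Finset.inter_univ]
  have key : (Finset.univ.filter (fun y => y ∉ ({Sum.inl S.c, Sum.inr T.c} : Finset (ι ⊕ κ)) ∧
      k ≤ ((F2 S T).desc y).card)) ⊆
      ((Finset.univ.filter (fun y => y ≠ S.c ∧ k ≤ (S.desc y).card)).image Sum.inl ∪
      (Finset.univ.filter (fun y => y ≠ T.c ∧ k ≤ (T.desc y).card)).image Sum.inr) := by
    rintro (a | b) hy
    · obtain ⟨-, h1, h2⟩ := Finset.mem_filter.1 hy
      have ha : a ≠ S.c := fun e => h1 (by rw [e]; simp)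
      have e : (F2 S T).desc (Sum.inl a) = (S.desc a).image Sum.inl := rfl
      rw [e, Finset.card_image_of_injective _ Sum.inl_injective] at h2
      exact Finset.mem_union_left _ (Finset.mem_image_of_mem _
        (Finset.mem_filter.2 ⟨Finset.mem_univ _, ha, h2⟩))
    · obtain ⟨-, h1, h2⟩ := Finset.mem_filter.1 hy
      have hb : b ≠ T.c := fun e => h1 (by rw [e]; simp)
      have e : (F2 S T).desc (Sum.inr b) = (T.desc b).image Sum.inr := rfl
      rw [e, Finset.card_image_of_injective _ Sum.inr_injective] at h2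
      exact Finset.mem_union_right _ (Finset.mem_image_of_mem _
        (Finset.mem_filter.2 ⟨Finset.mem_univ _, hb, h2⟩))
  refine (Finset.card_le_card key).trans ?_
  have h2 := Finset.card_union_le
    ((Finset.univ.filter (fun y => y ≠ S.c ∧ k ≤ (S.desc y).card)).image (Sum.inl : ι → ι ⊕ κ))
    ((Finset.univ.filter (fun y => y ≠ T.c ∧ k ≤ (T.desc y).card)).image (Sum.inr : κ → ι ⊕ κ))
  rw [Finset.card_image_of_injective _ Sum.inl_injective,
    Finset.card_image_of_injective _ Sum.inr_injective] at h2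
  exact h2

end two

lemma lk_root {ι : Type} [DecidableEq ι] [Fintype ι] (w : ι → ι → ℤ)
    (hw : ∀ i k, w k i = - w i k) {U V : Finset ι} (hd : Disjoint U V)
    (h : U ∪ V = Finset.univ) : lk w U V = ∑ i ∈ U, ∑ k, w i k := by
  have h1 : lk w U U = 0 := by
    have := lk_comm w hw U U
    omega
  have h2 : lk w U (U ∪ V) = lk w U U + lk w U V := by
    simp only [lk]
    rw [← Finset.sum_add_distrib]
    exact Finset.sum_congr rfl fun i _ => Finset.sum_union hd
  rw [h, h1, zero_add] at h2
  exact h2.symm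

open Classical in
theorem root_le (K : Type u) [Field K] {a b c d : Br} (h : EquivId K (.node a b) (.node c d))
    (hd : (Br.node a b).deg = (Br.node c d).deg) (k : ℕ) :
    N k c + N k d ≤ N k a + N k b := by
  obtain ⟨A⟩ := exists_model a
  obtain ⟨B⟩ := exists_model b
  letI := A.dec
  letI := A.fin
  letI := B.dec
  letI := B.fin
  have hw := w2_anti A.S B.S
  have gA := good_map (Sum.inl : A.ι → A.ι ⊕ B.ι) Sum.inl_injective A.S.w (w2 A.S B.S)
    (fun _ _ => rfl) A.t A.good
  have gB := good_map (Sum.inr : B.ι → A.ι ⊕ B.ι) Sum.inr_injective B.S.w (w2 A.S B.S)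
    (fun _ _ => rfl) B.t B.good
  have gAB : (LT.node (A.t.map (Sum.inl : A.ι → A.ι ⊕ B.ι)) (B.t.map Sum.inr)).Good
      (w2 A.S B.S) := by
    refine ⟨gA, gB, ?_, ?_⟩
    · rw [supp_map, supp_map]; exact disj_lr _ _
    · rw [supp_map, supp_map, A.supp, B.supp, lk_root _ hw (disj_lr _ _) univ_lr,
        Finset.sum_image (fun x _ y _ e => Sum.inl_injective e),
        Finset.sum_eq_single A.S.c, tot_c]
      · norm_num
      · intro i _ hi; exact tot_l A.S B.S hi
      · intro h; exact absurd (Finset.mem_univ _) h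
  obtain ⟨r, e, g, sr⟩ := test K (w2 A.S B.S) hw h
    (by rw [Fintype.card_sum, A.hc, B.hc, ← hd]; rfl) _ gAB
    (by simp [LT.shape, shape_map, A.shape, B.shape])
  rcases r with i | ⟨u, v⟩
  · cases e
  · have h0 := count (F2 A.S B.S) (adj2 A.S B.S) k (.node u v) g
    rw [sr] at h0
    have h0' := fk_two A.S B.S k
    have hA := A.hD k
    have hB := B.hD k
    obtain ⟨gu, gv, hdj, hl⟩ := g
    have hs : u.supp ∪ v.supp = Finset.univ := sr
    have e1 : u.shape = c := (Br.node.inj e).1
    have e2 : v.shape = d := (Br.node.inj e).2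
    have huv : ¬ (Sum.inl A.S.c ∈ u.supp ∧ Sum.inr B.S.c ∈ u.supp) := by
      rintro ⟨h1, h2⟩
      have := lk_root _ hw hdj.symm (by rw [Finset.union_comm]; exact hs)
      rw [sum0 A.S B.S (fun h => Finset.disjoint_left.1 hdj h1 h)
        (fun h => Finset.disjoint_left.1 hdj h2 h)] at this
      rw [lk_comm _ hw] at this
      exact hl (neg_eq_zero.1 this)
    have hvu : ¬ (Sum.inl A.S.c ∈ v.supp ∧ Sum.inr B.S.c ∈ v.supp) := by
      rintro ⟨h1, h2⟩
      have := lk_root _ hw hdj hs
      rw [sum0 A.S B.S (fun h => Finset.disjoint_left.1 hdj h h1)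
        (fun h => Finset.disjoint_left.1 hdj h h2)] at this
      exact hl this
    have hcard : ∀ W : Finset (A.ι ⊕ B.ι), ¬ (Sum.inl A.S.c ∈ W ∧ Sum.inr B.S.c ∈ W) →
        (W ∩ {Sum.inl A.S.c, Sum.inr B.S.c}).card ≤ 1 := by
      intro W hW
      rw [Finset.card_le_one]
      intro x hx y hy
      simp only [Finset.mem_inter, Finset.mem_insert, Finset.mem_singleton] at hx hy
      obtain ⟨hx1, hx2⟩ := hx
      obtain ⟨hy1, hy2⟩ := hy
      rcases hx2 with rfl | rfl <;> rcases hy2 with rfl | rfl
      · rfl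
      · exact absurd ⟨hx1, hy1⟩ hW
      · exact absurd ⟨hy1, hx1⟩ hW
      · rfl
    have c1 := cn_eq k u gu (hcard _ huv)
    have c2 := cn_eq k v gv (hcard _ hvu)
    simp only [cn] at h0
    rw [c1, c2, e1, e2] at h0
    omega

/-- **The degrees of the two factors at the root are determined.** -/
theorem root_deg (K : Type u) [Field K] {a b c d : Br} (h : EquivId K (.node a b) (.node c d))
    (hd : (Br.node a b).deg = (Br.node c d).deg) :
    (a.deg = c.deg ∧ b.deg = d.deg) ∨ (a.deg = d.deg ∧ b.deg = c.deg) := by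
  have h1 := fun k => root_le K h hd k
  have h2 := fun k => root_le K (fun A _ _ => (h A).symm) hd.symm k
  have h3 := fun k => N_eq K h hd k
  have a1 := h1 (min a.deg b.deg)
  have a3 := h3 (min a.deg b.deg)
  have b2 := h2 (min c.deg d.deg)
  have b3 := h3 (min c.deg d.deg)
  simp only [N] at a3 b3
  simp only [deg] at hd
  have m1 : min a.deg b.deg ≤ c.deg ∧ min a.deg b.deg ≤ d.deg := by
    by_contra hc
    rw [if_neg hc, if_pos ⟨min_le_left _ _, min_le_right _ _⟩] at a3
    omega
  have m2 : min c.deg d.deg ≤ a.deg ∧ min c.deg d.deg ≤ b.deg := by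
    by_contra hc
    rw [if_neg hc, if_pos ⟨min_le_left _ _, min_le_right _ _⟩] at b3
    omega
  omega

end Pool.Agent.R192.LM
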