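import Pool.Agent.R192.LM.Main
import Pool.Agent.R192.LM.Root

set_option autoImplicit false
set_option linter.all false

namespace Pool.Agent.R192.LM

universe u

open Br

/-- no node of the bracket structure has a lighter branch with exactly `m` letters -/
def NoB (m : ℕ) : Br → Prop
  | .leaf => True
  | .node l r => min l.deg r.deg ≠ m ∧ NoB m l ∧ NoB m r

lemma N_noB (m : ℕ) (s : Br) (h : NoB m s) : N m s = N (m + 1) s := by
  induction s with
  | leaf => rfl
  | node l r hl hr =>
    obtain ⟨h1, h2, h3⟩ := h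
    simp only [N]
    rw [hl h2, hr h3]
    congr 1
    by_cases h4 : m ≤ l.deg ∧ m ≤ r.deg
    · rw [if_pos h4, if_pos (by omega)]
    · rw [if_neg h4, if_neg (by omega)]

lemma N_zero (s : Br) : ∀ k, s.deg ≤ k → N k s = 0 := by
  induction s with
  | leaf => intro k _; rfl
  | node l r hl hr =>
    intro k hk
    simp only [deg] at hk
    have h1 := deg_pos l
    have h2 := deg_pos r
    simp only [N]
    rw [hl k (by omega), hr k (by omega), if_neg (by omega)]

lemma noB_deg (s : Br) : ∀ m, s.deg ≤ m → NoB m s := by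
  induction s with
  | leaf => intro m _; trivial
  | node l r hl hr =>
    intro m hm
    simp only [deg] at hm
    have h1 := deg_pos l
    have h2 := deg_pos r
    exact ⟨by omega, hl m (by omega), hr m (by omega)⟩

section

variable {ι : Type} [DecidableEq ι] [Fintype ι] {S : St ι}

/-- the root of an extremal tree -/
lemma root_struct {u v : LT ι} (hg : (LT.node u v).Good S.w) (hE : Eqk S (.node u v))
    (hs : u.supp ∪ v.supp = Finset.univ) :
    (∃ y, y ≠ S.c ∧ S.par y = S.c ∧ v.supp = S.desc y ∧ v.supp.card ≤ u.supp.card) ∨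
    (∃ y, y ≠ S.c ∧ S.par y = S.c ∧ u.supp = S.desc y ∧ u.supp.card ≤ v.supp.card) := by
  have hg0 := hg
  have hEc := eqk_children hg hE
  have htc : IsTop S S.c Finset.univ := by
    have := top_self (S := S) S.c
    rw [S.desc_c] at this
    exact this
  obtain ⟨gu, gv, hd, hl⟩ := hg
  obtain ⟨a, ha⟩ := exists_top u gu
  obtain ⟨b, hb⟩ := exists_top v gv
  obtain ⟨i, hi, k, hk, hik⟩ := exists_adj hl
  rcases w_cases S hik with ⟨h1, h2⟩ | ⟨h1, h2⟩
  · right
    obtain ⟨e, ht⟩ := top_step hd.symm hb ha h1 hi (h2 ▸ hk)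
    rw [Finset.union_comm, hs] at ht
    have hxb : S.c = b := top_unique htc ht
    rw [e] at h1 h2
    have hg' : (LT.node v u).Good S.w := ⟨gv, gu, hd.symm, by
      rw [lk_comm _ (fun i k => St.w_anti _ i k)]; exact neg_ne_zero.2 hl⟩
    have hE' : Eqk S (.node v u) := by
      intro k
      have h6 := hE k
      have hs' : (LT.node v u).supp = v.supp ∪ u.supp := rfl
      have hs'' : (LT.node u v).supp = u.supp ∪ v.supp := rfl
      rw [hs''] at h6
      rw [hs', Finset.union_comm v.supp u.supp]
      refine h6.trans (le_of_eq ?_)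
      congr 1
      simp only [cn]
      rw [Nat.add_comm (cn {S.c} k u) (cn {S.c} k v)]
      congr 1
      simp only [and_comm, or_comm]
    obtain ⟨e1, e2⟩ := core' hg' hE' hb ha h1 (h2 ▸ hk)
    refine ⟨a, h1, by rw [e1, hxb], ?_, e2⟩
    have hD := core_D1 hd.symm hb ha h1 (h2 ▸ hk) ha.1
    ext j
    constructor
    · exact fun hj => top_sub ha j hj
    · intro hj
      have : j ∈ u.supp ∪ v.supp := by rw [hs]; exact Finset.mem_univ _
      rcases Finset.mem_union.1 this with h | h
      · exact h
      · exact absurd hj (hD j h)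
  · left
    obtain ⟨e, ht⟩ := top_step hd ha hb h1 hk (h2 ▸ hi)
    rw [hs] at ht
    have hxa : S.c = a := top_unique htc ht
    rw [e] at h1 h2
    obtain ⟨e1, e2⟩ := core' hg0 hE ha hb h1 (h2 ▸ hi)
    refine ⟨b, h1, by rw [e1, hxa], ?_, e2⟩
    have hD := core_D1 hd ha hb h1 (h2 ▸ hi) hb.1
    ext j
    constructor
    · exact fun hj => top_sub hb j hj
    · intro hj
      have : j ∈ u.supp ∪ v.supp := by rw [hs]; exact Finset.mem_univ _
      rcases Finset.mem_union.1 this with h | h
      · exact absurd hj (hD j h)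
      · exact h

end

lemma supp_compl {ι κ : Type} [DecidableEq ι] [DecidableEq κ] [Fintype ι] [Fintype κ]
    {U V : Finset (ι ⊕ κ)} (hd : Disjoint U V) (h : U ∪ V = Finset.univ)
    (hV : V = Finset.univ.image Sum.inr) : U = Finset.univ.image Sum.inl := by
  ext x
  constructor
  · intro hx
    rcases x with a | b
    · simp
    · exact absurd (show Sum.inr b ∈ V by rw [hV]; simp) (Finset.disjoint_left.1 hd hx)
  · intro hx
    have : x ∈ U ∪ V := by rw [h]; exact Finset.mem_univ _
    rcases Finset.mem_union.1 this with h1 | h1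
    · exact h1
    · rw [hV] at h1
      exact absurd h1 (Finset.disjoint_left.1 (disj_lr _ _) hx)

open Classical in
/-- the factors at the root -/
theorem root_factors (K : Type u) [Field K] {a b c d : Br}
    (h : EquivId K (.node a b) (.node c d))
    (hd : (Br.node a b).deg = (Br.node c d).deg) (hab : b.deg ≤ a.deg) (hcd : d.deg ≤ c.deg)
    (hN : NoB b.deg a) : (Ex a c ∧ Ex b d) ∨ (Ex a d ∧ Ex b c) := by
  have hdeg := root_deg K h hd
  obtain ⟨A⟩ := exists_model a
  obtain ⟨B⟩ := exists_model b
  letI := A.dec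
  letI := A.fin
  letI := B.dec
  letI := B.fin
  have cA := A.hc
  have cB := B.hc
  have gA := good_map (Sum.inl : A.ι → A.ι ⊕ B.ι) Sum.inl_injective A.S.w (A.S.join B.S).w
    (St.w_join_ll A.S B.S) A.t A.good
  have gB := good_map (Sum.inr : B.ι → A.ι ⊕ B.ι) Sum.inr_injective B.S.w (A.S.join B.S).w
    (St.w_join_rr A.S B.S) B.t B.good
  have gAB : (LT.node (A.t.map (Sum.inl : A.ι → A.ι ⊕ B.ι)) (B.t.map Sum.inr)).Good
      (A.S.join B.S).w := by
    refine ⟨gA, gB, ?_, ?_⟩
    · rw [supp_map, supp_map]; exact disj_lr _ _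
    · rw [supp_map, supp_map, A.supp, B.supp, lk_join]; norm_num
  have sAB : (LT.node (A.t.map (Sum.inl : A.ι → A.ι ⊕ B.ι)) (B.t.map Sum.inr)).supp =
      Finset.univ := by
    rw [LT.supp, supp_map, supp_map, A.supp, B.supp]; exact univ_lr
  have shAB : (LT.node (A.t.map (Sum.inl : A.ι → A.ι ⊕ B.ι)) (B.t.map Sum.inr)).shape =
      .node a b := by
    simp [LT.shape, shape_map, A.shape, B.shape]
  have hD : ∀ k, (A.S.join B.S).D k ≤ N k (.node a b) := by
    intro k
    have h1 := St.D_join A.S B.S k (by omega)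
    have h2 := A.hD k
    have h3 := B.hD k
    rw [cA, cB] at h1
    simp only [N]
    omega
  obtain ⟨r, e, g, sr⟩ := test K (A.S.join B.S).w (fun i k => St.w_anti _ i k) h
    (by rw [Fintype.card_sum, A.hc, B.hc, ← hd]; rfl) _ gAB shAB
  have E0 := eqk_of hD gAB sAB (fun k => by rw [shAB])
  have E1 := eqk_of hD g sr (fun k => by rw [e]; exact (N_eq K h hd k).symm)
  obtain ⟨EA, EB⟩ := eqk_children gAB E0
  -- no vertex of `A` with exactly `deg b` descendants
  have hno : ∀ z : A.ι, z ≠ A.S.c → (A.S.desc z).card ≠ b.deg := by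
    intro z hz hcard
    have hA2 : ∀ k, A.S.D k = N k a := by
      intro k
      have h1 := count A.S.F A.S.adj k A.t A.good
      have h2 := cn_eq (Z := {A.S.c}) k A.t A.good (by
        refine (Finset.card_le_card Finset.inter_subset_right).trans ?_
        simp)
      rw [A.supp, fk_univ] at h1
      rw [A.shape] at h2
      have := A.hD k
      omega
    have h1 := hA2 b.deg
    have h2 := hA2 (b.deg + 1)
    rw [N_noB _ _ hN, ← h2] at h1
    have : (Finset.univ.filter (fun y => y ≠ A.S.c ∧ b.deg + 1 ≤ (A.S.desc y).card)).card <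
      (Finset.univ.filter (fun y => y ≠ A.S.c ∧ b.deg ≤ (A.S.desc y).card)).card := by
      apply Finset.card_lt_card
      rw [Finset.ssubset_iff_of_subset]
      · refine ⟨z, Finset.mem_filter.2 ⟨Finset.mem_univ _, hz, hcard.ge⟩, ?_⟩
        intro hm
        have := (Finset.mem_filter.1 hm).2.2
        omega
      · intro y hy
        obtain ⟨h3, h4, h5⟩ := Finset.mem_filter.1 hy
        exact Finset.mem_filter.2 ⟨h3, h4, by omega⟩
    simp only [St.D] at h1
    omega
  have key : ∀ y : A.ι ⊕ B.ι, y ≠ (A.S.join B.S).c → (A.S.join B.S).par y = (A.S.join B.S).c →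
      ((A.S.join B.S).desc y).card = b.deg →
      (A.S.join B.S).desc y = Finset.univ.image Sum.inr := by
    intro y hyc hyp hycard
    rcases y with z | z
    · have hz : z ≠ A.S.c := fun e => hyc (by rw [e]; rfl)
      have e : (A.S.join B.S).desc (Sum.inl z) = (A.S.desc z).image Sum.inl := by
        simp only [St.join, St.jdesc, if_neg hz]
      rw [e, Finset.card_image_of_injective _ Sum.inl_injective] at hycard
      exact absurd hycard (hno z hz)
    · have e : (A.S.join B.S).desc (Sum.inr z) = (B.S.desc z).image Sum.inr := rfl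
      rw [e, Finset.card_image_of_injective _ Sum.inr_injective] at hycard
      rw [e]
      congr 1
      rw [← Finset.card_eq_iff_eq_univ, hycard, cB]
  rcases r with i | ⟨u, v⟩
  · cases e
  · obtain ⟨Eu, Ev⟩ := eqk_children g E1
    have hrs := root_struct g E1 sr
    obtain ⟨gu, gv, hdj, hl⟩ := g
    have hs : u.supp ∪ v.supp = Finset.univ := sr
    have e1 : u.shape = c := (Br.node.inj e).1
    have e2 : v.shape = d := (Br.node.inj e).2
    have d1 := supp_card _ u gu
    have d2 := supp_card _ v gv
    rw [e1] at d1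
    rw [e2] at d2
    have fin : ∀ p q : LT (A.ι ⊕ B.ι), p.Good (A.S.join B.S).w → q.Good (A.S.join B.S).w →
        Eqk (A.S.join B.S) p → Eqk (A.S.join B.S) q → Disjoint p.supp q.supp →
        p.supp ∪ q.supp = Finset.univ → q.supp = Finset.univ.image Sum.inr →
        Ex a p.shape ∧ Ex b q.shape := by
      intro p q gp gq Ep Eq hpq hpq' hq
      have hp := supp_compl hpq hpq' hq
      have x1 := unique_ex (S := A.S.join B.S) _ (A.t.map Sum.inl) p le_rfl
        (by rw [supp_map, A.supp, hp]) gA gp EA Ep
      have x2 := unique_ex (S := A.S.join B.S) _ (B.t.map Sum.inr) q le_rfl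
        (by rw [supp_map, B.supp, hq]) gB gq EB Eq
      rw [shape_map, A.shape] at x1
      rw [shape_map, B.shape] at x2
      exact ⟨x1, x2⟩
    rcases hrs with ⟨y, hy1, hy2, hy3, hy4⟩ | ⟨y, hy1, hy2, hy3, hy4⟩
    · left
      have hv := key y hy1 hy2 (by rw [← hy3, d2]; omega)
      rw [← hy3] at hv
      have := fin u v gu gv Eu Ev hdj hs hv
      rw [e1, e2] at this
      exact this
    · right
      have hu := key y hy1 hy2 (by rw [← hy3, d1]; omega)
      rw [← hy3] at hu
      have := fin v u gv gu Ev Eu hdj.symm (by rw [Finset.union_comm]; exact hs) hu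
      rw [e1, e2] at this
      exact this

end Pool.Agent.R192.LM
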