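import Pool.Agent.R192.LM.TE

set_option autoImplicit false
set_option linter.all false

namespace Pool.Agent.R192.LM

open Br

open Classical in
/-- the factors at the root -/
theorem root_factors' {a b c d : Br}
    (h : TE (.node a b) (.node c d)) (hab : b.deg ≤ a.deg) (hcd : d.deg ≤ c.deg)
    (hN : NoB b.deg a) : (Ex a c ∧ Ex b d) ∨ (Ex a d ∧ Ex b c) := by
  have hdeg := root_deg' h
  have hd := h.1
  obtain ⟨A⟩ := exists_model a
  obtain ⟨B⟩ := exists_model b
  letI := A.dec
  letI := A.fin
  letI := B.dec
  letI := B.fin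
  have cA := A.hc
  have cB := B.hc
  have gA := good_map (Sum.inl : A.ι → A.ι ⊕ B.ι) Sum.inl_injective A.S.w (A.S.join B.S).w
    (St.w_join_ll A.S B.S) A.t A.good
  have gB := good_map (Sum.inr : B.ι → A.ι ⊕ B.ι) Sum.inr_injective B.S.w (A.S.join B.S).w
    (St.w_join_rr A.S B.S) B.t B.good
  have gAB : (LT.node (A.t.map (Sum.inl : A.ι → A.ι ⊕ B.ι)) (B.t.map Sum.inr)).Good
      (A.S.join B.S).w := by
    refine ⟨gA, gB, ?_, ?_⟩
    · rw [supp_map, supp_map]; exact disj_lr _ _
    · rw [supp_map, supp_map, A.supp, B.supp, lk_join]; norm_num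
  have sAB : (LT.node (A.t.map (Sum.inl : A.ι → A.ι ⊕ B.ι)) (B.t.map Sum.inr)).supp =
      Finset.univ := by
    rw [LT.supp, supp_map, supp_map, A.supp, B.supp]; exact univ_lr
  have shAB : (LT.node (A.t.map (Sum.inl : A.ι → A.ι ⊕ B.ι)) (B.t.map Sum.inr)).shape =
      .node a b := by
    simp [LT.shape, shape_map, A.shape, B.shape]
  have hD : ∀ k, (A.S.join B.S).D k ≤ N k (.node a b) := by
    intro k
    have h1 := St.D_join A.S B.S k (by omega)
    have h2 := A.hD k
    have h3 := B.hD k
    rw [cA, cB] at h1
    simp only [N]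
    omega
  obtain ⟨r, e, g, sr⟩ := h.use (A.S.join B.S).w (fun i k => St.w_anti _ i k) _ gAB shAB sAB
  have E0 := eqk_of hD gAB sAB (fun k => by rw [shAB])
  have E1 := eqk_of hD g sr (fun k => by rw [e]; exact (N_eq' h k).symm)
  obtain ⟨EA, EB⟩ := eqk_children gAB E0
  -- no vertex of `A` with exactly `deg b` descendants
  have hno : ∀ z : A.ι, z ≠ A.S.c → (A.S.desc z).card ≠ b.deg := by
    intro z hz hcard
    have hA2 : ∀ k, A.S.D k = N k a := by
      intro k
      have h1 := count A.S.F A.S.adj k A.t A.good
      have h2 := cn_eq (Z := {A.S.c}) k A.t A.good (by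
        refine (Finset.card_le_card Finset.inter_subset_right).trans ?_
        simp)
      rw [A.supp, fk_univ] at h1
      rw [A.shape] at h2
      have := A.hD k
      omega
    have h1 := hA2 b.deg
    have h2 := hA2 (b.deg + 1)
    rw [N_noB _ _ hN, ← h2] at h1
    have : (Finset.univ.filter (fun y => y ≠ A.S.c ∧ b.deg + 1 ≤ (A.S.desc y).card)).card <
      (Finset.univ.filter (fun y => y ≠ A.S.c ∧ b.deg ≤ (A.S.desc y).card)).card := by
      apply Finset.card_lt_card
      rw [Finset.ssubset_iff_of_subset]
      · refine ⟨z, Finset.mem_filter.2 ⟨Finset.mem_univ _, hz, hcard.ge⟩, ?_⟩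
        intro hm
        have := (Finset.mem_filter.1 hm).2.2
        omega
      · intro y hy
        obtain ⟨h3, h4, h5⟩ := Finset.mem_filter.1 hy
        exact Finset.mem_filter.2 ⟨h3, h4, by omega⟩
    simp only [St.D] at h1
    omega
  have key : ∀ y : A.ι ⊕ B.ι, y ≠ (A.S.join B.S).c → (A.S.join B.S).par y = (A.S.join B.S).c →
      ((A.S.join B.S).desc y).card = b.deg →
      (A.S.join B.S).desc y = Finset.univ.image Sum.inr := by
    intro y hyc hyp hycard
    rcases y with z | z
    · have hz : z ≠ A.S.c := fun e => hyc (by rw [e]; rfl)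
      have e : (A.S.join B.S).desc (Sum.inl z) = (A.S.desc z).image Sum.inl := by
        simp only [St.join, St.jdesc, if_neg hz]
      rw [e, Finset.card_image_of_injective _ Sum.inl_injective] at hycard
      exact absurd hycard (hno z hz)
    · have e : (A.S.join B.S).desc (Sum.inr z) = (B.S.desc z).image Sum.inr := rfl
      rw [e, Finset.card_image_of_injective _ Sum.inr_injective] at hycard
      rw [e]
      congr 1
      rw [← Finset.card_eq_iff_eq_univ, hycard, cB]
  rcases r with i | ⟨u, v⟩
  · cases e
  · obtain ⟨Eu, Ev⟩ := eqk_children g E1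
    have hrs := root_struct g E1 sr
    obtain ⟨gu, gv, hdj, hl⟩ := g
    have hs : u.supp ∪ v.supp = Finset.univ := sr
    have e1 : u.shape = c := (Br.node.inj e).1
    have e2 : v.shape = d := (Br.node.inj e).2
    have d1 := supp_card _ u gu
    have d2 := supp_card _ v gv
    rw [e1] at d1
    rw [e2] at d2
    have fin : ∀ p q : LT (A.ι ⊕ B.ι), p.Good (A.S.join B.S).w → q.Good (A.S.join B.S).w →
        Eqk (A.S.join B.S) p → Eqk (A.S.join B.S) q → Disjoint p.supp q.supp →
        p.supp ∪ q.supp = Finset.univ → q.supp = Finset.univ.image Sum.inr →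
        Ex a p.shape ∧ Ex b q.shape := by
      intro p q gp gq Ep Eq hpq hpq' hq
      have hp := supp_compl hpq hpq' hq
      have x1 := unique_ex (S := A.S.join B.S) _ (A.t.map Sum.inl) p le_rfl
        (by rw [supp_map, A.supp, hp]) gA gp EA Ep
      have x2 := unique_ex (S := A.S.join B.S) _ (B.t.map Sum.inr) q le_rfl
        (by rw [supp_map, B.supp, hq]) gB gq EB Eq
      rw [shape_map, A.shape] at x1
      rw [shape_map, B.shape] at x2
      exact ⟨x1, x2⟩
    rcases hrs with ⟨y, hy1, hy2, hy3, hy4⟩ | ⟨y, hy1, hy2, hy3, hy4⟩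
    · left
      have hv := key y hy1 hy2 (by rw [← hy3, d2]; omega)
      rw [← hy3] at hv
      have := fin u v gu gv Eu Ev hdj hs hv
      rw [e1, e2] at this
      exact this
    · right
      have hu := key y hy1 hy2 (by rw [← hy3, d1]; omega)
      rw [← hy3] at hu
      have := fin v u gv gu Ev Eu hdj.symm (by rw [Finset.union_comm]; exact hs) hu
      rw [e1, e2] at this
      exact this


lemma ex_deg {s t : Br} (h : Ex s t) : s.deg = t.deg := by
  induction h with
  | refl s => rfl
  | symm _ ih => exact ih.symm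
  | trans _ _ ih1 ih2 => exact ih1.trans ih2
  | comm s t => simp only [deg]; omega
  | congr _ _ ih1 ih2 => simp only [deg]; omega
  | exch a b c _ _ => simp only [deg]; omega

lemma conn_split {β : Type} [DecidableEq β] (w : β → β → ℤ) (hw : ∀ i k, w k i = - w i k)
    (P : β → Prop) (x : LT β) (g : x.Good w)
    (h : ∀ i ∈ x.supp, ∀ k ∈ x.supp, P i → ¬ P k → w i k = 0) :
    (∀ i ∈ x.supp, P i) ∨ (∀ i ∈ x.supp, ¬ P i) := by
  induction x with
  | leaf i =>
    by_cases hP : P i
    · left; intro j hj; simp only [LT.supp, Finset.mem_singleton] at hj; rw [hj]; exact hP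
    · right; intro j hj; simp only [LT.supp, Finset.mem_singleton] at hj; rw [hj]; exact hP
  | node u v hu hv =>
    obtain ⟨gu, gv, hd, hl⟩ := g
    obtain ⟨i, hi, k, hk, hik⟩ := exists_adj hl
    simp only [LT.supp] at h ⊢
    have i' := Finset.mem_union_left v.supp hi
    have k' := Finset.mem_union_right u.supp hk
    rcases hu gu (fun i hi k hk => h i (Finset.mem_union_left _ hi) k (Finset.mem_union_left _ hk))
      with hu' | hu' <;>
    rcases hv gv (fun i hi k hk => h i (Finset.mem_union_right _ hi) k
      (Finset.mem_union_right _ hk)) with hv' | hv'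
    · left; intro j hj; rcases Finset.mem_union.1 hj with hj | hj
      · exact hu' j hj
      · exact hv' j hj
    · exact absurd (h i i' k k' (hu' i hi) (hv' k hk)) hik
    · have := h k k' i i' (hv' k hk) (hu' i hi)
      rw [hw] at this
      exact absurd (neg_eq_zero.1 this) hik
    · right; intro j hj; rcases Finset.mem_union.1 hj with hj | hj
      · exact hu' j hj
      · exact hv' j hj

open Classical in
lemma D_eq {s : Br} (A : Model s) (k : ℕ) :
    (letI := A.dec; letI := A.fin; A.S.D k) = N k s := by
  letI := A.dec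
  letI := A.fin
  have h1 := count A.S.F A.S.adj k A.t A.good
  have h2 := cn_eq (Z := {A.S.c}) k A.t A.good (by
    refine (Finset.card_le_card Finset.inter_subset_right).trans ?_
    simp)
  rw [A.supp, fk_univ] at h1
  rw [A.shape] at h2
  have := A.hD k
  show A.S.D k = N k s
  omega

lemma no_desc {ι : Type} [DecidableEq ι] [Fintype ι] (S : St ι) (m : ℕ)
    (h : S.D m = S.D (m + 1)) (z : ι) (hz : z ≠ S.c) : (S.desc z).card ≠ m := by
  intro hcard
  have : (Finset.univ.filter (fun y => y ≠ S.c ∧ m + 1 ≤ (S.desc y).card)).card <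
    (Finset.univ.filter (fun y => y ≠ S.c ∧ m ≤ (S.desc y).card)).card := by
    apply Finset.card_lt_card
    rw [Finset.ssubset_iff_of_subset]
    · refine ⟨z, Finset.mem_filter.2 ⟨Finset.mem_univ _, hz, hcard.ge⟩, ?_⟩
      intro hm
      have := (Finset.mem_filter.1 hm).2.2
      omega
    · intro y hy
      obtain ⟨h3, h4, h5⟩ := Finset.mem_filter.1 hy
      exact Finset.mem_filter.2 ⟨h3, h4, by omega⟩
  simp only [St.D] at h
  omega

/-- the lighter factor, one direction -/
lemma light1 {a b c d : Br} (h : TE (.node a b) (.node c d)) (hab : b.deg < a.deg)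
    (hac : a.deg = c.deg) (hbd : b.deg = d.deg) (hN : N b.deg a = N (b.deg + 1) a) (g : Fm)
    (hg : g.Ok b) : g.Ok d := by
  obtain ⟨A⟩ := exists_model a
  letI := A.dec
  letI := A.fin
  letI := g.dec
  letI := g.fin
  obtain ⟨y, gy, ey, sy⟩ := hg
  have cA := A.hc
  have cg : Fintype.card g.ι = b.deg := by
    rw [← ey, ← supp_card g.w y gy, sy, Finset.card_univ]
  have hno := no_desc A.S b.deg (by
    have h1 := D_eq A b.deg
    have h2 := D_eq A (b.deg + 1)
    exact h1.trans (hN.trans h2.symm))
  obtain ⟨j0, _⟩ := supp_nonempty y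
  have hw := jw_anti A.S.w g.w A.S.c j0 (fun i k => St.w_anti _ i k) g.anti
  have gA := good_map (Sum.inl : A.ι → A.ι ⊕ g.ι) Sum.inl_injective A.S.w (jw A.S.w g.w A.S.c j0)
    (fun _ _ => rfl) A.t A.good
  have gB := good_map (Sum.inr : g.ι → A.ι ⊕ g.ι) Sum.inr_injective g.w (jw A.S.w g.w A.S.c j0)
    (fun _ _ => rfl) y gy
  have gAB : (LT.node (A.t.map (Sum.inl : A.ι → A.ι ⊕ g.ι)) (y.map Sum.inr)).Good
      (jw A.S.w g.w A.S.c j0) := by
    refine ⟨gA, gB, ?_, ?_⟩
    · rw [supp_map, supp_map]; exact disj_lr _ _
    · rw [supp_map, supp_map, A.supp, sy]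
      simp only [lk]
      rw [Finset.sum_image (fun x _ y _ e => Sum.inl_injective e), Finset.sum_eq_single A.S.c]
      · rw [Finset.sum_image (fun x _ y _ e => Sum.inr_injective e), Finset.sum_eq_single j0]
        · simp [jw]
        · intro b _ hb; simp [jw, hb]
        · intro h; exact absurd (Finset.mem_univ _) h
      · intro a _ ha
        refine Finset.sum_eq_zero fun k hk => ?_
        obtain ⟨b, _, rfl⟩ := Finset.mem_image.1 hk
        simp [jw, ha]
      · intro h; exact absurd (Finset.mem_univ _) h
  obtain ⟨r, e, gr, sr⟩ := h.use (jw A.S.w g.w A.S.c j0) hw _ gAB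
    (by simp [LT.shape, shape_map, A.shape, ey])
    (by rw [LT.supp, supp_map, supp_map, A.supp, sy]; exact univ_lr)
  rcases r with i | ⟨u, v⟩
  · cases e
  · have hs : u.supp ∪ v.supp = Finset.univ := sr
    have e1 : u.shape = c := (Br.node.inj e).1
    have e2 : v.shape = d := (Br.node.inj e).2
    have d1 := supp_card _ u gr.1
    have d2 := supp_card _ v gr.2.1
    have hdj := gr.2.2.1
    rw [e1] at d1
    rw [e2] at d2
    have PR : ∀ z : LT (A.ι ⊕ g.ι), z.Good (jw A.S.w g.w A.S.c j0) →
        z.supp = Finset.univ.image Sum.inr → g.Ok z.shape := by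
      intro z gz sz
      obtain ⟨z', rfl⟩ := pull Sum.inr z (by
        intro i hi
        rw [sz] at hi
        obtain ⟨a, _, e⟩ := Finset.mem_image.1 hi
        exact ⟨a, e⟩)
      refine ⟨z', good_pull _ Sum.inr_injective g.w _ (fun _ _ => rfl) z' gz,
        (shape_map _ z').symm, ?_⟩
      rw [supp_map] at sz
      exact Finset.image_injective Sum.inr_injective sz
    have hinr : ∀ x : LT (A.ι ⊕ g.ι), (∀ i ∈ x.supp, ∃ b, i = Sum.inr b) →
        x.supp ⊆ Finset.univ.image Sum.inr := by
      intro x h i hi
      obtain ⟨a, rfl⟩ := h i hi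
      simp
    have cinr : (Finset.univ.image (Sum.inr : g.ι → A.ι ⊕ g.ι)).card = b.deg := by
      rw [Finset.card_image_of_injective _ Sum.inr_injective, Finset.card_univ, cg]
    rcases conn2 A.S.w g.w A.S.c j0 v gr.2.1 with h1 | h1 | h1
    · -- `v` inside the heavier part
      exfalso
      obtain ⟨z', hz'⟩ := pull Sum.inl v (fun i hi => by
        obtain ⟨a, e⟩ := h1 i hi
        exact ⟨a, e.symm⟩)
      have gz' := good_pull _ Sum.inl_injective A.S.w (jw A.S.w g.w A.S.c j0) (fun _ _ => rfl) z'
        (by rw [hz']; exact gr.2.1)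
      obtain ⟨z, hz⟩ := exists_top z' gz'
      have hv : v.supp = z'.supp.image Sum.inl := by rw [← hz', supp_map]
      have hinu : ∀ j : g.ι, Sum.inr j ∈ u.supp := by
        intro j
        have : Sum.inr j ∈ u.supp ∪ v.supp := by rw [hs]; exact Finset.mem_univ _
        rcases Finset.mem_union.1 this with h | h
        · exact h
        · obtain ⟨a, e⟩ := h1 _ h
          cases e
      have hzu : ∀ q ∈ z'.supp, Sum.inl q ∉ u.supp := by
        intro q hq hqu
        exact Finset.disjoint_left.1 hdj hqu (by rw [hv]; exact Finset.mem_image_of_mem _ hq)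
      have hcardz : z'.supp.card = b.deg := by
        have := congrArg Finset.card hv
        rw [Finset.card_image_of_injective _ Sum.inl_injective] at this
        omega
      by_cases hzc : z = A.S.c
      · -- then `u` is inside the lighter part
        rcases conn2 A.S.w g.w A.S.c j0 u gr.1 with h2 | h2 | h2
        · obtain ⟨a, e⟩ := h2 _ (hinu j0)
          cases e
        · have := Finset.card_le_card (hinr u h2)
          omega
        · exact hzu z hz.1 (by rw [hzc]; exact h2.1)
      · have hsp := conn_split _ hw (fun i => ∃ q ∈ A.S.desc z, i = Sum.inl q) u gr.1 (by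
          rintro i hi k hk ⟨q, hq, rfl⟩ hk'
          rcases k with k | k
          · show A.S.w q k = 0
            by_contra hne
            rcases w_cases A.S hne with ⟨n1, n2⟩ | ⟨n1, n2⟩
            · by_cases hqz : q = z
              · exact hzu z hz.1 (hqz ▸ hi)
              · exact hk' ⟨k, n2 ▸ (A.S.desc_up q z hq hqz).2, rfl⟩
            · exact hk' ⟨k, A.S.desc_par k z n1 (n2 ▸ hq), rfl⟩
          · by_contra hne
            obtain ⟨n1, n2⟩ := jw_ne A.S.w g.w A.S.c j0 hne
            exact A.S.c_nmem z hzc (n1 ▸ hq))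
        rcases hsp with h2 | h2
        · obtain ⟨q, _, e⟩ := h2 _ (hinu j0)
          cases e
        · apply hno z hzc
          rw [← hcardz]
          congr 1
          ext q
          constructor
          · intro hq
            have : Sum.inl q ∈ u.supp ∪ v.supp := by rw [hs]; exact Finset.mem_univ _
            rcases Finset.mem_union.1 this with h | h
            · exact absurd ⟨q, hq, rfl⟩ (h2 _ h)
            · rw [hv] at h
              obtain ⟨q', hq', e⟩ := Finset.mem_image.1 h
              rw [← Sum.inl.inj e]; exact hq'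
          · intro hq
            exact top_sub hz q hq
    · have := Finset.eq_of_subset_of_card_le (hinr v h1) (by omega)
      rw [← e2]
      exact PR v gr.2.1 this
    · exfalso
      rcases conn2 A.S.w g.w A.S.c j0 u gr.1 with h2 | h2 | h2
      · have hu : u.supp = Finset.univ.image Sum.inl := by
          apply Finset.eq_of_subset_of_card_le
          · intro i hi
            obtain ⟨a, rfl⟩ := h2 i hi
            simp
          · rw [Finset.card_image_of_injective _ Sum.inl_injective, Finset.card_univ]
            omega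
        exact Finset.disjoint_left.1 hdj (by rw [hu]; simp) h1.1
      · have := Finset.card_le_card (hinr u h2)
        omega
      · exact Finset.disjoint_left.1 hdj h2.1 h1.1

/-- an unbalanced root -/
theorem te_light {a b c d : Br} (h : TE (.node a b) (.node c d)) (hab : b.deg < a.deg)
    (hN : NoB b.deg a) :
    (Ex a c ∧ TE b d) ∨ (Ex a d ∧ TE b c) := by
  have key : ∀ c d : Br, TE (.node a b) (.node c d) → a.deg = c.deg → b.deg = d.deg →
      Ex a c ∧ TE b d := by
    intro c d h hac hbd
    have n1 := N_noB _ _ hN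
    have q1 := N_eq' h b.deg
    have q2 := N_eq' h (b.deg + 1)
    have z1 := N_zero b b.deg le_rfl
    have z2 := N_zero b (b.deg + 1) (by omega)
    have z3 := N_zero d b.deg (by omega)
    have z4 := N_zero d (b.deg + 1) (by omega)
    simp only [N] at q1 q2
    rw [if_pos ⟨by omega, by omega⟩, if_pos ⟨by omega, by omega⟩] at q1
    rw [if_neg (by omega), if_neg (by omega)] at q2
    have n2 : N d.deg c = N (d.deg + 1) c := by
      rw [← hbd]; omega
    refine ⟨?_, ⟨hbd, fun g => ⟨light1 h hab hac hbd n1 g, light1 h.symm (by omega) hac.symm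
      hbd.symm n2 g⟩⟩⟩
    rcases root_factors' h hab.le (by omega) hN with h1 | h1
    · exact h1.1
    · exfalso
      have := ex_deg h1.1
      omega
  rcases root_deg' h with ⟨h1, h2⟩ | ⟨h1, h2⟩
  · left; exact key c d h h1 h2
  · right
    refine key d c ?_ h1 h2
    refine ⟨?_, fun f => (h.2 f).trans ?_⟩
    · have := h.1
      simp only [deg] at this ⊢
      omega
    · have sw : ∀ c d : Br, f.Ok (.node c d) → f.Ok (.node d c) := by
        intro c d
        letI := f.dec
        letI := f.fin
        rintro ⟨x, gx, ex, sx⟩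
        rcases x with i | ⟨u, v⟩
        · cases ex
        · obtain ⟨gu, gv, hd, hl⟩ := gx
          refine ⟨.node v u, ⟨gv, gu, hd.symm, ?_⟩, ?_, ?_⟩
          · rw [lk_comm _ f.anti]; exact neg_ne_zero.2 hl
          · have := Br.node.inj ex
            simp only [LT.shape]
            rw [this.1, this.2]
          · have : u.supp ∪ v.supp = Finset.univ := sx
            show v.supp ∪ u.supp = _
            rw [Finset.union_comm]; exact this
      exact ⟨sw c d, sw d c⟩

end Pool.Agent.R192.LM
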