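import Pool.Agent.R192.LM.Struct

set_option autoImplicit false
set_option linter.all false

namespace Pool.Agent.R192.LM

universe u

open Br

section main

variable {ι : Type} [DecidableEq ι] [Fintype ι] (S : St ι)

/-- decomposition at the top -/
def Dec (x : ι) (X : Finset ι) (s : Br) : Prop :=
  ∃ L : List (LT ι), Ex s (fold .leaf L) ∧ Valid 1 L ∧ (fold .leaf L).deg = s.deg ∧
    (∀ B ∈ L, B.Good S.w ∧ Eqk S B ∧ ∃ z ∈ X, z ≠ S.c ∧ S.par z = x ∧ B.supp = S.desc z ∩ X) ∧
    (∀ z ∈ X, z ≠ S.c → S.par z = x → ∃ B ∈ L, B.supp = S.desc z ∩ X) ∧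
    (L.map LT.supp).Nodup

variable {S}

lemma dec_step {U : Finset ι} {v : LT ι} {s : Br} {x y : ι} (hd : Disjoint U v.supp)
    (hx : IsTop S x U) (hy : IsTop S y v.supp) (hc : y ≠ S.c) (hp : S.par y = x)
    (hs : s.deg = U.card) (hle : v.supp.card ≤ U.card) (hv : v.Good S.w) (hE : Eqk S v)
    (h : Dec S x U s) : Dec S x (U ∪ v.supp) (.node s v.shape) := by
  obtain ⟨L, h1, h2, h3, h4, h5, h6⟩ := h
  have hpU : S.par y ∈ U := hp ▸ hx.1
  have hdeg : v.shape.deg = v.supp.card := (supp_card S.w v hv).symm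
  have key1 : ∀ z ∈ U, z ≠ S.c → S.par z = x → S.desc z ∩ (U ∪ v.supp) = S.desc z ∩ U := by
    intro z hz hzc hzp
    have hD : ∀ j ∈ v.supp, j ∉ S.desc z := by
      refine top_ind hy (fun j => j ∉ S.desc z) ?_ ?_
      · intro h
        have h7 := (S.desc_up y z h (by
          rintro rfl
          exact Finset.disjoint_left.1 hd hz hy.1)).2
        rw [hp] at h7
        have h8 := desc_rk h7
        have h9 := S.rk_lt z hzc
        rw [hzp] at h9
        omega
      · intro j hj _ _ _ ih h
        refine ih (S.desc_up j z h ?_).2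
        rintro rfl
        exact Finset.disjoint_left.1 hd hz hj
    ext j
    simp only [Finset.mem_inter, Finset.mem_union]
    constructor
    · rintro ⟨a, b | b⟩
      · exact ⟨a, b⟩
      · exact absurd a (hD j b)
    · rintro ⟨a, b⟩
      exact ⟨a, Or.inl b⟩
  have key2 : S.desc y ∩ (U ∪ v.supp) = v.supp := by
    have hD := core_D1 hd hx hy hc hpU hy.1
    ext j
    simp only [Finset.mem_inter, Finset.mem_union]
    constructor
    · rintro ⟨a, b | b⟩
      · exact absurd a (hD j b)
      · exact b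
    · intro b
      exact ⟨top_sub hy j b, Or.inr b⟩
  refine ⟨L ++ [v], ?_, ?_, ?_, ?_, ?_, ?_⟩
  · rw [fold_append]
    exact Ex.congr h1 (Ex.refl _)
  · refine (valid_append L [v] .leaf).2 ⟨h2, ?_, trivial⟩
    rw [h3]
    omega
  · rw [fold_append]
    simp only [fold, List.foldl_cons, List.foldl_nil, deg] at h3 ⊢
    omega
  · intro B hB
    rcases List.mem_append.1 hB with hB | hB
    · obtain ⟨g, e, z, hz, hzc, hzp, hzs⟩ := h4 B hB
      exact ⟨g, e, z, Finset.mem_union_left _ hz, hzc, hzp, by rw [key1 z hz hzc hzp]; exact hzs⟩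
    · rw [List.mem_singleton] at hB
      rw [hB]
      exact ⟨hv, hE, y, Finset.mem_union_right _ hy.1, hc, hp, key2.symm⟩
  · intro z hz hzc hzp
    rcases Finset.mem_union.1 hz with hz | hz
    · obtain ⟨B, hB, hBs⟩ := h5 z hz hzc hzp
      exact ⟨B, List.mem_append.2 (Or.inl hB), by rw [key1 z hz hzc hzp]; exact hBs⟩
    · have : z = y := by
        by_contra hne
        have := (hy.2 z hz hne).2
        rw [hzp] at this
        exact Finset.disjoint_left.1 hd hx.1 this
      rw [this]
      exact ⟨v, List.mem_append.2 (Or.inr (by simp)), key2.symm⟩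
  · rw [List.map_append, List.nodup_append]
    refine ⟨h6, by simp, ?_⟩
    intro a ha b hb hab
    rw [List.map_singleton, List.mem_singleton] at hb
    obtain ⟨B, hB, hBs⟩ := List.mem_map.1 ha
    obtain ⟨g, e, z, hz, hzc, hzp, hzs⟩ := h4 B hB
    have hy1 : y ∈ B.supp := by rw [hBs, hab, hb]; exact hy.1
    rw [hzs] at hy1
    exact Finset.disjoint_left.1 hd (Finset.mem_inter.1 hy1).2 hy.1

lemma core' {u v : LT ι} (hg : (LT.node u v).Good S.w) (h : Eqk S (.node u v)) {x y : ι}
    (hx : IsTop S x u.supp) (hy : IsTop S y v.supp) (hc : y ≠ S.c) (hp : S.par y ∈ u.supp) :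
    S.par y = x ∧ v.supp.card ≤ u.supp.card := by
  have h1 := eqk_node hg h
  obtain ⟨gu, gv, hd, hl⟩ := hg
  refine core hd hx hy hc hp ?_
  intro k
  have h1 := h1 k
  have h2 := count' gu k
  have h3 := count' gv k
  omega

lemma dec_of (t : LT ι) : ∀ x, t.Good S.w → Eqk S t → IsTop S x t.supp →
    Dec S x t.supp t.shape := by
  induction t with
  | leaf i =>
    intro x _ _ hx
    refine ⟨[], Ex.refl _, trivial, rfl, by simp, ?_, by simp⟩
    intro z hz hzc hzp
    simp only [LT.supp] at hz hx
    have h1 := Finset.mem_singleton.1 hz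
    have h2 := Finset.mem_singleton.1 hx.1
    have := S.rk_lt z hzc
    rw [hzp, h1, h2] at this
    omega
  | node u v hu hv =>
    intro x hg hE hx
    have hg0 := hg
    have hEc := eqk_children hg hE
    obtain ⟨gu, gv, hd, hl⟩ := hg
    obtain ⟨a, ha⟩ := exists_top u gu
    obtain ⟨b, hb⟩ := exists_top v gv
    obtain ⟨i, hi, k, hk, hik⟩ := exists_adj hl
    have hs : (LT.node u v).supp = u.supp ∪ v.supp := rfl
    have hsh : (LT.node u v).shape = .node u.shape v.shape := rfl
    rw [hs] at hx
    rw [hs, hsh]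
    rcases w_cases S hik with ⟨h1, h2⟩ | ⟨h1, h2⟩
    · -- `i = a`, parent in `v`
      obtain ⟨e, ht⟩ := top_step hd.symm hb ha h1 hi (h2 ▸ hk)
      rw [Finset.union_comm] at ht
      have hxb : x = b := top_unique hx ht
      rw [hxb]
      rw [e] at h1 h2
      have hg' : (LT.node v u).Good S.w := ⟨gv, gu, hd.symm, by
        rw [lk_comm _ (fun i k => St.w_anti _ i k)]; exact neg_ne_zero.2 hl⟩
      have hE' : Eqk S (.node v u) := by
        intro k
        have h5 := eqk_node hg0 hE k
        have h6 := hE k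
        rw [hs] at h6
        have hs' : (LT.node v u).supp = v.supp ∪ u.supp := rfl
        rw [hs', Finset.union_comm v.supp u.supp]
        refine h6.trans (le_of_eq ?_)
        congr 1
        simp only [cn]
        rw [Nat.add_comm (cn {S.c} k u) (cn {S.c} k v)]
        congr 1
        simp only [and_comm, or_comm]
      obtain ⟨e1, e2⟩ := core' hg' hE' hb ha h1 (h2 ▸ hk)
      have := dec_step (s := v.shape) hd.symm hb ha h1 e1 (supp_card S.w v gv).symm e2 gu hEc.1
        (hv b gv hEc.2 hb)
      rw [Finset.union_comm] at this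
      obtain ⟨L, l1, l2, l3, l4⟩ := this
      exact ⟨L, (Ex.comm _ _).trans l1, l2, by rw [l3]; simp only [deg]; omega, l4⟩
    · obtain ⟨e, ht⟩ := top_step hd ha hb h1 hk (h2 ▸ hi)
      have hxa : x = a := top_unique hx ht
      rw [hxa]
      rw [e] at h1 h2
      obtain ⟨e1, e2⟩ := core' hg0 hE ha hb h1 (h2 ▸ hi)
      exact dec_step (s := u.shape) hd ha hb h1 e1 (supp_card S.w u gu).symm e2 gv hEc.2
        (hu a gu hEc.1 ha)

theorem unique_ex (n : ℕ) : ∀ t t' : LT ι, t.supp.card ≤ n → t.supp = t'.supp →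
    t.Good S.w → t'.Good S.w → Eqk S t → Eqk S t' → Ex t.shape t'.shape := by
  induction n with
  | zero =>
    intro t t' hn
    have := (supp_nonempty t).card_pos
    omega
  | succ n ih =>
    intro t t' hn hs hg hg' hE hE'
    obtain ⟨x, hx⟩ := exists_top t hg
    obtain ⟨L, l1, l2, l3, l4, l5, l6⟩ := dec_of t x hg hE hx
    obtain ⟨M, m1, m2, m3, m4, m5, m6⟩ := dec_of t' x hg' hE' (hs ▸ hx)
    rw [← hs] at m4 m5
    have key : Ex (fold .leaf L) (fold .leaf M) := by
      refine sort L.length L M rfl l2 m2 (fun B hB => (supp_card S.w B (l4 B hB).1).symm)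
        (fun B hB => (supp_card S.w B (m4 B hB).1).symm) ?_ ?_
      · rw [List.perm_ext_iff_of_nodup l6 m6]
        intro a
        constructor
        · intro ha
          obtain ⟨B, hB, rfl⟩ := List.mem_map.1 ha
          obtain ⟨_, _, z, hz, hzc, hzp, hzs⟩ := l4 B hB
          obtain ⟨B', hB', e⟩ := m5 z hz hzc hzp
          rw [hzs, ← e]
          exact List.mem_map_of_mem hB'
        · intro ha
          obtain ⟨B, hB, rfl⟩ := List.mem_map.1 ha
          obtain ⟨_, _, z, hz, hzc, hzp, hzs⟩ := m4 B hB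
          obtain ⟨B', hB', e⟩ := l5 z hz hzc hzp
          rw [hzs, ← e]
          exact List.mem_map_of_mem hB'
      · intro B hB B' hB' hBB
        obtain ⟨g, e, z, hz, hzc, hzp, hzs⟩ := l4 B hB
        obtain ⟨g', e', _⟩ := m4 B' hB'
        refine ih B B' ?_ hBB g g' e e'
        have : B.supp.card < t.supp.card := by
          apply Finset.card_lt_card
          rw [hzs, Finset.ssubset_iff_of_subset Finset.inter_subset_right]
          refine ⟨x, hx.1, fun h => ?_⟩
          have h1 := desc_rk (Finset.mem_inter.1 h).1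
          have h2 := S.rk_lt z hzc
          rw [hzp] at h2
          omega
        omega
    exact l1.trans (key.trans m1.symm)

end main

open Classical in
lemma eqk_of {ι : Type} [DecidableEq ι] [Fintype ι] {S : St ι} {s : Br}
    (hD : ∀ k, S.D k ≤ N k s) {t : LT ι} (hg : t.Good S.w)
    (hs : t.supp = Finset.univ) (hN : ∀ k, N k t.shape = N k s) : Eqk S t := by
  intro k
  have h1 := cn_eq (Z := {S.c}) k t hg (by
    refine (Finset.card_le_card Finset.inter_subset_right).trans ?_
    simp)
  have h2 := hD k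
  rw [h1, hN, hs, fk_univ]
  omega

/-- **Main theorem, first part.** -/
theorem ex_of_equiv (K : Type u) [Field K] {s t : Br} (h : EquivId K s t) (hd : s.deg = t.deg) :
    Ex s t := by
  obtain ⟨A⟩ := exists_model s
  letI := A.dec
  letI := A.fin
  obtain ⟨b, e, g, sb⟩ := test K A.S.w (fun i k => St.w_anti _ i k) h (by rw [A.hc, hd]) A.t
    A.good A.shape
  have h1 : Eqk A.S A.t := eqk_of A.hD A.good A.supp (fun k => by rw [A.shape])
  have h2 : Eqk A.S b := eqk_of A.hD g sb (fun k => by rw [e]; exact (N_eq K h hd k).symm)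
  have := unique_ex A.t.supp.card A.t b le_rfl (by rw [sb, A.supp]) A.good g h1 h2
  rw [A.shape, e] at this
  exact this

end Pool.Agent.R192.LM
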