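import Pool.Agent.R192.LM.Tree

set_option autoImplicit false
set_option linter.all false

namespace Pool.Agent.R192.LM

open Br

/-- The equivalence of bracket structures generated by `uv = vu` and by the exchanges
`(ab)c = (ac)b` in which `b` and `c` have at most as many letters as `a`. -/
inductive Ex : Br → Br → Prop
  | refl (s : Br) : Ex s s
  | symm {s t : Br} : Ex s t → Ex t s
  | trans {s t r : Br} : Ex s t → Ex t r → Ex s r
  | comm (s t : Br) : Ex (.node s t) (.node t s)
  | congr {s s' t t' : Br} : Ex s s' → Ex t t' → Ex (.node s t) (.node s' t')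
  | exch (a b c : Br) : b.deg ≤ a.deg → c.deg ≤ a.deg →
      Ex (.node (.node a b) c) (.node (.node a c) b)

variable {ι : Type} [DecidableEq ι]

def fold (A : Br) (L : List (LT ι)) : Br := L.foldl (fun a B => Br.node a B.shape) A

def Valid (n : ℕ) : List (LT ι) → Prop
  | [] => True
  | B :: L => B.shape.deg ≤ n ∧ Valid (n + B.shape.deg) L

lemma fold_cons (A : Br) (B : LT ι) (L : List (LT ι)) :
    fold A (B :: L) = fold (.node A B.shape) L := rfl

lemma fold_append (A : Br) (L M : List (LT ι)) : fold A (L ++ M) = fold (fold A L) M := by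
  simp [fold, List.foldl_append]

lemma fold_congr {A A' : Br} (h : Ex A A') (L : List (LT ι)) : Ex (fold A L) (fold A' L) := by
  induction L generalizing A A' with
  | nil => exact h
  | cons B L ih => exact ih (Ex.congr h (Ex.refl _))

lemma valid_append (L M : List (LT ι)) : ∀ A : Br,
    Valid A.deg (L ++ M) ↔ Valid A.deg L ∧ Valid (fold A L).deg M := by
  induction L with
  | nil => intro A; simp [Valid, fold]
  | cons B L ih =>
    intro A
    have := ih (.node A B.shape)
    simp only [deg] at this
    simp only [List.cons_append, Valid, fold_cons, this, and_assoc]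

lemma move (L : List (LT ι)) : ∀ (A : Br) (B : LT ι), Valid A.deg (B :: L) →
    (∀ C ∈ L, C.shape.deg ≤ B.shape.deg) →
    Ex (fold A (B :: L)) (.node (fold A L) B.shape) ∧ Valid A.deg L := by
  induction L with
  | nil => intro A B _ _; exact ⟨Ex.refl _, trivial⟩
  | cons C L ih =>
    intro A B hv hm
    obtain ⟨h1, h2, h3⟩ := hv
    have hC := hm C (by simp)
    obtain ⟨i1, i2⟩ := ih (.node A C.shape) B (by
      refine ⟨by simp only [deg]; omega, ?_⟩
      have : (Br.node A C.shape).deg + B.shape.deg = A.deg + B.shape.deg + C.shape.deg := by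
        simp only [deg]; omega
      rw [this]
      exact h3) (fun D hD => hm D (by simp [hD]))
    constructor
    · rw [fold_cons, fold_cons, fold_cons]
      rw [fold_cons] at i1
      refine Ex.trans (fold_congr (Ex.exch A B.shape C.shape h1 (by omega)) L) i1
    · exact ⟨by omega, by simpa [deg] using i2⟩

lemma exists_max (L : List (LT ι)) (h : L ≠ []) :
    ∃ B ∈ L, ∀ C ∈ L, C.shape.deg ≤ B.shape.deg := by
  induction L with
  | nil => exact absurd rfl h
  | cons B L ih =>
    by_cases hL : L = []
    · exact ⟨B, by simp, by simp [hL]⟩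
    · obtain ⟨C, hC, hC'⟩ := ih hL
      by_cases hBC : C.shape.deg ≤ B.shape.deg
      · refine ⟨B, by simp, fun D hD => ?_⟩
        rcases List.mem_cons.1 hD with rfl | hD
        · exact le_rfl
        · exact (hC' D hD).trans hBC
      · refine ⟨C, by simp [hC], fun D hD => ?_⟩
        rcases List.mem_cons.1 hD with rfl | hD
        · omega
        · exact hC' D hD

theorem sort (n : ℕ) : ∀ L L' : List (LT ι), L.length = n → Valid 1 L → Valid 1 L' →
    (∀ B ∈ L, B.shape.deg = B.supp.card) → (∀ B ∈ L', B.shape.deg = B.supp.card) →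
    (L.map LT.supp).Perm (L'.map LT.supp) →
    (∀ B ∈ L, ∀ B' ∈ L', B.supp = B'.supp → Ex B.shape B'.shape) →
    Ex (fold .leaf L) (fold .leaf L') := by
  induction n with
  | zero =>
    intro L L' hn _ _ _ _ hp _
    have h1 : L = [] := List.length_eq_zero_iff.1 hn
    have h2 := hp.length_eq
    rw [h1] at h2
    simp only [List.map_nil, List.length_nil, List.length_map] at h2
    have h3 : L' = [] := List.length_eq_zero_iff.1 h2.symm
    rw [h1, h3]
    exact Ex.refl _
  | succ n ih =>
    intro L L' hn hv hv' hg hg' hp hE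
    have hne : L ≠ [] := by rintro rfl; simp at hn
    obtain ⟨B, hB, hmax⟩ := exists_max L hne
    have hB2 : B.supp ∈ L'.map LT.supp := hp.subset (List.mem_map_of_mem hB)
    obtain ⟨B', hB', hBB⟩ := List.mem_map.1 hB2
    obtain ⟨L1, L2, rfl⟩ := List.append_of_mem hB
    obtain ⟨M1, M2, rfl⟩ := List.append_of_mem hB'
    have hmax' : ∀ C ∈ M1 ++ B' :: M2, C.shape.deg ≤ B'.shape.deg := by
      intro C hC
      have h1 : C.supp ∈ (L1 ++ B :: L2).map LT.supp := hp.symm.subset (List.mem_map_of_mem hC)
      obtain ⟨C', hC', hCC⟩ := List.mem_map.1 h1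
      have h2 := hmax C' hC'
      rw [hg C' hC', hCC, hg B hB, ← hBB] at h2
      rw [hg' C hC, hg' B' hB']
      exact h2
    have v1 := (valid_append L1 (B :: L2) .leaf).1 hv
    have v2 := (valid_append M1 (B' :: M2) .leaf).1 hv'
    obtain ⟨m1, m2⟩ := move L2 (fold .leaf L1) B v1.2 (fun C hC => hmax C (by simp [hC]))
    obtain ⟨m1', m2'⟩ := move M2 (fold .leaf M1) B' v2.2 (fun C hC => hmax' C (by simp [hC]))
    rw [← fold_append, ← fold_append] at m1 m1'
    have hp' : ((L1 ++ L2).map LT.supp).Perm ((M1 ++ M2).map LT.supp) := by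
      have e1 : ((L1 ++ B :: L2).map LT.supp).Perm (B.supp :: (L1 ++ L2).map LT.supp) := by
        rw [← List.map_cons]
        exact List.perm_middle.map _
      have e2 : ((M1 ++ B' :: M2).map LT.supp).Perm (B.supp :: (M1 ++ M2).map LT.supp) := by
        rw [← hBB, ← List.map_cons]
        exact List.perm_middle.map _
      exact (e1.symm.trans (hp.trans e2)).cons_inv
    have hlen : (L1 ++ L2).length = n := by
      simp only [List.length_append, List.length_cons] at hn ⊢
      omega
    have key := ih (L1 ++ L2) (M1 ++ M2) hlen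
      ((valid_append L1 L2 .leaf).2 ⟨v1.1, m2⟩) ((valid_append M1 M2 .leaf).2 ⟨v2.1, m2'⟩)
      (fun C hC => hg C (by
        simp only [List.mem_append, List.mem_cons] at hC ⊢; tauto))
      (fun C hC => hg' C (by
        simp only [List.mem_append, List.mem_cons] at hC ⊢; tauto)) hp'
      (fun C hC C' hC' => hE C (by
        simp only [List.mem_append, List.mem_cons] at hC ⊢; tauto) C' (by
        simp only [List.mem_append, List.mem_cons] at hC' ⊢; tauto))
    exact m1.trans ((Ex.congr key (hE B hB B' hB' hBB.symm)).trans m1'.symm)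

end Pool.Agent.R192.LM
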