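import Pool.Agent.R192.LM.Sort

set_option autoImplicit false
set_option linter.all false

namespace Pool.Agent.R192.LM

universe u

open Br

section fkl

variable {ι : Type} [DecidableEq ι] {Z : Finset ι} (T : Fst ι Z)

lemma fk_zero {k : ℕ} {X : Finset ι} (h : X.card < k) : fk T k X = 0 := by
  simp only [fk]
  rw [Finset.card_eq_zero, Finset.filter_eq_empty_iff]
  intro y _ hy
  have := Finset.card_le_card (Finset.inter_subset_right (s₁ := T.desc y) (s₂ := X))
  omega

lemma fk_strict {k : ℕ} {U V : Finset ι} (hd : Disjoint U V) {z : ι} (hz : z ∈ U) (hc : z ∉ Z)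
    (h1 : (T.desc z ∩ U).card < k) (h2 : k ≤ (T.desc z ∩ (U ∪ V)).card) :
    fk T k U + fk T k V + 1 ≤ fk T k (U ∪ V) := by
  simp only [fk]
  rw [← Finset.card_union_of_disjoint (Finset.disjoint_filter_filter hd)]
  apply Nat.succ_le_of_lt
  apply Finset.card_lt_card
  rw [Finset.ssubset_iff_of_subset]
  · refine ⟨z, Finset.mem_filter.2 ⟨Finset.mem_union_left _ hz, hc, h2⟩, ?_⟩
    intro hm
    rw [Finset.mem_union, Finset.mem_filter, Finset.mem_filter] at hm
    rcases hm with hm | hm
    · omega
    · exact Finset.disjoint_left.1 hd hz hm.1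
  · intro y hy
    simp only [Finset.mem_union, Finset.mem_filter] at hy ⊢
    rcases hy with ⟨h1, h2, h3⟩ | ⟨h1, h2, h3⟩
    · exact ⟨Or.inl h1, h2, h3.trans (Finset.card_le_card
        (Finset.inter_subset_inter_left Finset.subset_union_left))⟩
    · exact ⟨Or.inr h1, h2, h3.trans (Finset.card_le_card
        (Finset.inter_subset_inter_left Finset.subset_union_right))⟩

end fkl

section struct

variable {ι : Type} [DecidableEq ι] [Fintype ι] (S : St ι)

def IsTop (x : ι) (X : Finset ι) : Prop := x ∈ X ∧ ∀ i ∈ X, i ≠ x → i ≠ S.c ∧ S.par i ∈ X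

lemma w_cases {i k : ι} (h : S.w i k ≠ 0) :
    (i ≠ S.c ∧ S.par i = k) ∨ (k ≠ S.c ∧ S.par k = i) := by
  by_contra hc
  rw [not_or] at hc
  apply h
  simp only [St.w]
  rw [if_neg hc.1, if_neg hc.2, sub_zero]

variable {S}

lemma top_ind {x : ι} {X : Finset ι} (h : IsTop S x X) (P : ι → Prop) (hx : P x)
    (hs : ∀ i ∈ X, i ≠ x → i ≠ S.c → S.par i ∈ X → P (S.par i) → P i) : ∀ i ∈ X, P i := by
  have key : ∀ n, ∀ i ∈ X, S.rk i ≤ n → P i := by
    intro n
    induction n with
    | zero =>
      intro i hi hn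
      by_cases e : i = x
      · rw [e]; exact hx
      · have h1 := h.2 i hi e
        have := S.rk_lt i h1.1
        omega
    | succ n ih =>
      intro i hi hn
      by_cases e : i = x
      · rw [e]; exact hx
      · have h1 := h.2 i hi e
        have := S.rk_lt i h1.1
        exact hs i hi e h1.1 h1.2 (ih _ h1.2 (by omega))
  exact fun i hi => key _ i hi le_rfl

lemma top_self (y : ι) : IsTop S y (S.desc y) :=
  ⟨S.self_mem y, fun i hi hne => S.desc_up i y hi hne⟩

lemma top_rk {x : ι} {X : Finset ι} (h : IsTop S x X) : ∀ i ∈ X, S.rk x ≤ S.rk i :=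
  top_ind h (fun i => S.rk x ≤ S.rk i) le_rfl (fun i _ _ hc _ ih => ih.trans (S.rk_lt i hc).le)

lemma top_sub {x : ι} {X : Finset ι} (h : IsTop S x X) : ∀ i ∈ X, i ∈ S.desc x :=
  top_ind h (fun i => i ∈ S.desc x) (S.self_mem x) (fun i _ _ hc _ ih => S.desc_par i x hc ih)

lemma desc_rk {y j : ι} (h : j ∈ S.desc y) : S.rk y ≤ S.rk j := top_rk (top_self y) j h

lemma top_unique {x y : ι} {X : Finset ι} (h : IsTop S x X) (h' : IsTop S y X) : x = y := by
  by_contra hne
  have h1 := h'.2 x h.1 hne
  have h2 := S.rk_lt x h1.1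
  have h3 := top_rk h _ h1.2
  omega

lemma top_step {U V : Finset ι} (hd : Disjoint U V) {x y k : ι} (hx : IsTop S x U)
    (hy : IsTop S y V) (hc : k ≠ S.c) (hk : k ∈ V) (hp : S.par k ∈ U) :
    k = y ∧ IsTop S x (U ∪ V) := by
  have e : k = y := by
    by_contra hne
    exact Finset.disjoint_left.1 hd hp (hy.2 k hk hne).2
  refine ⟨e, Finset.mem_union_left _ hx.1, fun i hi hne => ?_⟩
  rcases Finset.mem_union.1 hi with hi | hi
  · exact ⟨(hx.2 i hi hne).1, Finset.mem_union_left _ (hx.2 i hi hne).2⟩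
  · by_cases h : i = y
    · rw [h, ← e]; exact ⟨hc, Finset.mem_union_left _ hp⟩
    · exact ⟨(hy.2 i hi h).1, Finset.mem_union_right _ (hy.2 i hi h).2⟩

lemma exists_top (t : LT ι) (ht : t.Good S.w) : ∃ x, IsTop S x t.supp := by
  induction t with
  | leaf i =>
    refine ⟨i, by simp [LT.supp], fun j hj hne => ?_⟩
    simp only [LT.supp, Finset.mem_singleton] at hj
    exact absurd hj hne
  | node u v hu hv =>
    obtain ⟨gu, gv, hd, hl⟩ := ht
    obtain ⟨x, hx⟩ := hu gu
    obtain ⟨y, hy⟩ := hv gv
    obtain ⟨i, hi, k, hk, hik⟩ := exists_adj hl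
    rcases w_cases S hik with ⟨h1, h2⟩ | ⟨h1, h2⟩
    · refine ⟨y, ?_⟩
      have := (top_step hd.symm hy hx h1 hi (h2 ▸ hk)).2
      rw [Finset.union_comm] at this
      exact this
    · exact ⟨x, (top_step hd hx hy h1 hk (h2 ▸ hi)).2⟩

lemma core_D1 {U V : Finset ι} (hd : Disjoint U V) {x y : ι} (hx : IsTop S x U)
    (hy : IsTop S y V) (hc : y ≠ S.c) (hp : S.par y ∈ U) {z : ι} (hz : z ∈ V) :
    ∀ j ∈ U, j ∉ S.desc z := by
  refine top_ind hx (fun j => j ∉ S.desc z) ?_ ?_
  · intro h
    have h1 := desc_rk h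
    have h2 := top_rk hy z hz
    have h3 := S.rk_lt y hc
    have h4 := top_rk hx _ hp
    omega
  · intro j hj _ _ _ ih h
    refine ih (S.desc_up j z h ?_).2
    rintro rfl
    exact Finset.disjoint_left.1 hd hj hz

lemma core_D2 {V : Finset ι} {y p : ι} (hy : IsTop S y V) (hp : y ∈ S.desc p) : V ⊆ S.desc p := by
  intro j hj
  exact top_ind hy (fun j => j ∈ S.desc p) hp (fun i _ _ hc _ ih => S.desc_par i p hc ih) j hj

lemma core {U V : Finset ι} (hd : Disjoint U V) {x y : ι} (hx : IsTop S x U)
    (hy : IsTop S y V) (hc : y ≠ S.c) (hp : S.par y ∈ U)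
    (H : ∀ k, fk S.F k (U ∪ V) + (if S.c ∉ U ∧ k ≤ U.card then 1 else 0) +
      (if S.c ∉ V ∧ k ≤ V.card then 1 else 0) ≤ fk S.F k U + fk S.F k V +
      (if k ≤ U.card ∧ k ≤ V.card then 1 else 0) +
      (if (S.c ∉ U ∧ S.c ∉ V) ∧ k ≤ U.card + V.card then 1 else 0)) :
    S.par y = x ∧ V.card ≤ U.card := by
  have cV : S.c ∉ V := fun h => (hy.2 _ h (Ne.symm hc)).1 rfl
  have hV : 1 ≤ V.card := Finset.card_pos.2 ⟨y, hy.1⟩
  have hU : 1 ≤ U.card := Finset.card_pos.2 ⟨x, hx.1⟩
  have htop := (top_step hd hx hy hc hy.1 hp).2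
  have hUV : (U ∪ V).card = U.card + V.card := Finset.card_union_of_disjoint hd
  have hxs : S.desc x ∩ (U ∪ V) = U ∪ V := Finset.inter_eq_right.2 (fun i hi => top_sub htop i hi)
  constructor
  · by_contra hne
    have hpc := (hx.2 _ hp hne).1
    have hs : S.desc (S.par y) ∩ (U ∪ V) = (S.desc (S.par y) ∩ U) ∪ V := by
      rw [Finset.inter_union_distrib_left, Finset.inter_eq_right.2
        (core_D2 hy (S.desc_par y _ hc (S.self_mem _)))]
    have hs' : (S.desc (S.par y) ∩ (U ∪ V)).card = (S.desc (S.par y) ∩ U).card + V.card := by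
      rw [hs, Finset.card_union_of_disjoint (hd.mono_left Finset.inter_subset_right)]
    have hp1 : 1 ≤ (S.desc (S.par y) ∩ U).card :=
      Finset.card_pos.2 ⟨_, Finset.mem_inter.2 ⟨S.self_mem _, hp⟩⟩
    have hle := Finset.card_le_card (Finset.inter_subset_right (s₁ := S.desc (S.par y)) (s₂ := U))
    have h1 := fk_strict S.F (k := (S.desc (S.par y) ∩ (U ∪ V)).card) hd hp (by simpa using hpc)
      (by show (S.desc (S.par y) ∩ U).card < _; omega) le_rfl
    have h2 := H (S.desc (S.par y) ∩ (U ∪ V)).card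
    rw [if_neg (show ¬ (S.c ∉ V ∧ (S.desc (S.par y) ∩ (U ∪ V)).card ≤ V.card) from
        fun h => by omega),
      if_neg (show ¬ ((S.desc (S.par y) ∩ (U ∪ V)).card ≤ U.card ∧
        (S.desc (S.par y) ∩ (U ∪ V)).card ≤ V.card) from fun h => by omega)] at h2
    by_cases cU : S.c ∈ U
    · rw [if_neg (show ¬ ((S.c ∉ U ∧ S.c ∉ V) ∧ _ ≤ U.card + V.card) from
        fun h => h.1.1 cU)] at h2
      omega
    · by_cases hm : (S.desc (S.par y) ∩ (U ∪ V)).card ≤ U.card
      · rw [if_pos (show S.c ∉ U ∧ _ from ⟨cU, hm⟩)] at h2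
        split_ifs at h2 <;> omega
      · have h3 : fk S.F (S.desc (S.par y) ∩ (U ∪ V)).card U = 0 := fk_zero S.F (by omega)
        have h4 : fk S.F (S.desc (S.par y) ∩ (U ∪ V)).card V = 0 := fk_zero S.F (by omega)
        have h5 : 1 < fk S.F (S.desc (S.par y) ∩ (U ∪ V)).card (U ∪ V) := by
          simp only [fk]
          rw [Finset.one_lt_card]
          refine ⟨S.par y, Finset.mem_filter.2 ⟨Finset.mem_union_left _ hp, by simpa using hpc,
            le_rfl⟩, x, Finset.mem_filter.2 ⟨Finset.mem_union_left _ hx.1, ?_, ?_⟩, hne⟩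
          · intro h
            rw [Finset.mem_singleton] at h
            exact cU (h ▸ hx.1)
          · show _ ≤ (S.desc x ∩ (U ∪ V)).card
            rw [hxs]
            omega
        split_ifs at h2 <;> omega
  · by_contra hlt
    have h2 := H V.card
    have h3 := fk_union S.F V.card hd
    rw [if_neg (show ¬ (S.c ∉ U ∧ V.card ≤ U.card) from fun h => by omega),
      if_pos (show S.c ∉ V ∧ V.card ≤ V.card from ⟨cV, le_rfl⟩),
      if_neg (show ¬ (V.card ≤ U.card ∧ V.card ≤ V.card) from fun h => by omega)] at h2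
    by_cases cU : S.c ∈ U
    · rw [if_neg (show ¬ ((S.c ∉ U ∧ S.c ∉ V) ∧ _ ≤ U.card + V.card) from
        fun h => h.1.1 cU)] at h2
      omega
    · have hle := Finset.card_le_card (Finset.inter_subset_right (s₁ := S.desc x) (s₂ := U))
      have h1 := fk_strict S.F (k := V.card) hd hx.1 (by
          intro h
          rw [Finset.mem_singleton] at h
          exact cU (h ▸ hx.1))
        (by show (S.desc x ∩ U).card < _; omega)
        (by show _ ≤ (S.desc x ∩ (U ∪ V)).card; rw [hxs]; omega)
      split_ifs at h2 <;> omega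

open Classical in
/-- equality in the count -/
def Eqk (S : St ι) (t : LT ι) : Prop := ∀ k, fk S.F k t.supp ≤
  cn {S.c} k t + (if Disjoint t.supp {S.c} ∧ k ≤ t.supp.card then 1 else 0)

lemma not_both {U V : Finset ι} (hd : Disjoint U V) (c : ι) : Disjoint U {c} ∨ Disjoint V {c} := by
  rw [Finset.disjoint_singleton_right, Finset.disjoint_singleton_right]
  by_contra h
  rw [not_or, not_not, not_not] at h
  exact Finset.disjoint_left.1 hd h.1 h.2

open Classical in
lemma eqk_node {u v : LT ι} (hg : (LT.node u v).Good S.w) (h : Eqk S (.node u v)) (k : ℕ) :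
    fk S.F k (u.supp ∪ v.supp) ≤ cn {S.c} k u + cn {S.c} k v +
      (if k ≤ u.supp.card ∧ k ≤ v.supp.card then 1 else 0) +
      (if (S.c ∉ u.supp ∧ S.c ∉ v.supp) ∧ k ≤ u.supp.card + v.supp.card then 1 else 0) := by
  obtain ⟨gu, gv, hd, hl⟩ := hg
  have h1 := h k
  have hs : (LT.node u v).supp = u.supp ∪ v.supp := rfl
  rw [hs] at h1
  simp only [cn, Finset.card_union_of_disjoint hd, Finset.disjoint_singleton_right,
    Finset.mem_union, not_or] at h1
  have h3 : S.c ∉ u.supp ∨ S.c ∉ v.supp := by
    have := not_both hd S.c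
    simpa only [Finset.disjoint_singleton_right] using this
  simp only [h3, and_true] at h1
  exact h1

open Classical in
lemma count' {u : LT ι} (gu : u.Good S.w) (k : ℕ) :
    cn {S.c} k u + (if S.c ∉ u.supp ∧ k ≤ u.supp.card then 1 else 0) ≤ fk S.F k u.supp := by
  have h := count S.F S.adj k u gu
  simp only [Finset.disjoint_singleton_right] at h
  exact h

open Classical in
lemma eqk_iff {u : LT ι} : Eqk S u ↔ ∀ k, fk S.F k u.supp ≤
    cn {S.c} k u + (if S.c ∉ u.supp ∧ k ≤ u.supp.card then 1 else 0) := by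
  simp only [Eqk, Finset.disjoint_singleton_right]

lemma eqk_children {u v : LT ι} (hg : (LT.node u v).Good S.w) (h : Eqk S (.node u v)) :
    Eqk S u ∧ Eqk S v := by
  have h1 := eqk_node hg h
  obtain ⟨gu, gv, hd, hl⟩ := hg
  constructor
  · rw [eqk_iff]
    intro k
    by_contra hc
    have h1 := h1 k
    have h2 := count' gu k
    have h3 := count' gv k
    have h4 := fk_union S.F k hd
    by_cases hk : u.supp.card < k
    · rw [fk_zero S.F hk] at hc
      exact hc (Nat.zero_le _)
    · rw [not_le] at hc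
      by_cases pu : S.c ∈ u.supp
      · by_cases pv : S.c ∈ v.supp
        · exact absurd pv (Finset.disjoint_left.1 hd pu)
        · simp only [pu, pv, not_true_eq_false, not_false_eq_true, false_and, true_and,
            if_false] at h1 h2 h3 hc
          split_ifs at h1 h2 h3 hc <;> omega
      · by_cases pv : S.c ∈ v.supp
        · simp only [pu, pv, not_true_eq_false, not_false_eq_true, false_and, true_and,
            and_false, if_false] at h1 h2 h3 hc
          split_ifs at h1 h2 h3 hc <;> omega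
        · simp only [pu, pv, not_true_eq_false, not_false_eq_true, false_and, true_and,
            if_false] at h1 h2 h3 hc
          split_ifs at h1 h2 h3 hc <;> omega
  · rw [eqk_iff]
    intro k
    by_contra hc
    have h1 := h1 k
    have h2 := count' gu k
    have h3 := count' gv k
    have h4 := fk_union S.F k hd
    by_cases hk : v.supp.card < k
    · rw [fk_zero S.F hk] at hc
      exact hc (Nat.zero_le _)
    · rw [not_le] at hc
      by_cases pu : S.c ∈ u.supp
      · by_cases pv : S.c ∈ v.supp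
        · exact absurd pv (Finset.disjoint_left.1 hd pu)
        · simp only [pu, pv, not_true_eq_false, not_false_eq_true, false_and, true_and,
            if_false] at h1 h2 h3 hc
          split_ifs at h1 h2 h3 hc <;> omega
      · by_cases pv : S.c ∈ v.supp
        · simp only [pu, pv, not_true_eq_false, not_false_eq_true, false_and, true_and,
            and_false, if_false] at h1 h2 h3 hc
          split_ifs at h1 h2 h3 hc <;> omega
        · simp only [pu, pv, not_true_eq_false, not_false_eq_true, false_and, true_and,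
            if_false] at h1 h2 h3 hc
          split_ifs at h1 h2 h3 hc <;> omega

end struct

end Pool.Agent.R192.LM
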