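import Pool.Agent.R192.LM.Factors

set_option autoImplicit false
set_option linter.all false

namespace Pool.Agent.R192.LM

universe u

open Br

/-- an antisymmetric form on a finite set -/
structure Fm where
  ι : Type
  dec : DecidableEq ι
  fin : Fintype ι
  w : ι → ι → ℤ
  anti : ∀ i k, w k i = - w i k

/-- some labelling of `s` by the whole set is good -/
def Fm.Ok (f : Fm) (s : Br) : Prop :=
  letI := f.dec
  letI := f.fin
  ∃ x : LT f.ι, x.Good f.w ∧ x.shape = s ∧ x.supp = Finset.univ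

/-- equivalence in all tests -/
def TE (s t : Br) : Prop := s.deg = t.deg ∧ ∀ f : Fm, f.Ok s ↔ f.Ok t

lemma TE.symm {s t : Br} (h : TE s t) : TE t s := ⟨h.1.symm, fun f => (h.2 f).symm⟩

lemma te_of_equiv (K : Type u) [Field K] {s t : Br} (h : EquivId K s t) (hd : s.deg = t.deg) :
    TE s t := by
  refine ⟨hd, fun f => ?_⟩
  letI := f.dec
  letI := f.fin
  constructor
  · rintro ⟨x, g, e, sx⟩
    have hc : Fintype.card f.ι = s.deg := by
      rw [← e, ← supp_card f.w x g, sx, Finset.card_univ]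
    obtain ⟨b, e', g', sb⟩ := test K f.w f.anti h (by rw [hc, hd]) x g e
    exact ⟨b, g', e', sb⟩
  · rintro ⟨x, g, e, sx⟩
    have hc : Fintype.card f.ι = t.deg := by
      rw [← e, ← supp_card f.w x g, sx, Finset.card_univ]
    obtain ⟨b, e', g', sb⟩ := test K f.w f.anti (fun A _ _ => (h A).symm) (by rw [hc, hd]) x g e
    exact ⟨b, g', e', sb⟩

lemma TE.use {s t : Br} (h : TE s t) {ι : Type} [dι : DecidableEq ι] [fι : Fintype ι]
    (w : ι → ι → ℤ) (hw : ∀ i k, w k i = - w i k) (x : LT ι) (g : x.Good w) (e : x.shape = s)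
    (sx : x.supp = Finset.univ) : ∃ b : LT ι, b.shape = t ∧ b.Good w ∧ b.supp = Finset.univ := by
  obtain ⟨b, g', e', sb⟩ := (h.2 ⟨ι, dι, fι, w, hw⟩).1 ⟨x, g, e, sx⟩
  exact ⟨b, e', g', sb⟩

theorem N_le' {s t : Br} (h : TE s t) (k : ℕ) : N k t ≤ N k s := by
  obtain ⟨A⟩ := exists_model s
  letI := A.dec
  letI := A.fin
  obtain ⟨b, e, g, sb⟩ := h.use A.S.w (fun i k => St.w_anti _ i k) A.t A.good A.shape A.supp
  have h1 := count A.S.F A.S.adj k b g
  have h2 := cn_eq (Z := {A.S.c}) k b g (by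
    refine (Finset.card_le_card Finset.inter_subset_right).trans ?_
    simp)
  rw [sb, fk_univ] at h1
  rw [e] at h2
  have := A.hD k
  omega

theorem N_eq' {s t : Br} (h : TE s t) (k : ℕ) : N k s = N k t :=
  le_antisymm (N_le' h.symm k) (N_le' h k)

theorem ex_of_te {s t : Br} (h : TE s t) : Ex s t := by
  obtain ⟨A⟩ := exists_model s
  letI := A.dec
  letI := A.fin
  obtain ⟨b, e, g, sb⟩ := h.use A.S.w (fun i k => St.w_anti _ i k) A.t A.good A.shape A.supp
  have h1 : Eqk A.S A.t := eqk_of A.hD A.good A.supp (fun k => by rw [A.shape])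
  have h2 : Eqk A.S b := eqk_of A.hD g sb (fun k => by rw [e]; exact (N_eq' h k).symm)
  have := unique_ex A.t.supp.card A.t b le_rfl (by rw [sb, A.supp]) A.good g h1 h2
  rw [A.shape, e] at this
  exact this

open Classical in
theorem root_le' {a b c d : Br} (h : TE (.node a b) (.node c d)) (k : ℕ) :
    N k c + N k d ≤ N k a + N k b := by
  obtain ⟨A⟩ := exists_model a
  obtain ⟨B⟩ := exists_model b
  letI := A.dec
  letI := A.fin
  letI := B.dec
  letI := B.fin
  have hw := w2_anti A.S B.S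
  have gA := good_map (Sum.inl : A.ι → A.ι ⊕ B.ι) Sum.inl_injective A.S.w (w2 A.S B.S)
    (fun _ _ => rfl) A.t A.good
  have gB := good_map (Sum.inr : B.ι → A.ι ⊕ B.ι) Sum.inr_injective B.S.w (w2 A.S B.S)
    (fun _ _ => rfl) B.t B.good
  have gAB : (LT.node (A.t.map (Sum.inl : A.ι → A.ι ⊕ B.ι)) (B.t.map Sum.inr)).Good
      (w2 A.S B.S) := by
    refine ⟨gA, gB, ?_, ?_⟩
    · rw [supp_map, supp_map]; exact disj_lr _ _
    · rw [supp_map, supp_map, A.supp, B.supp, lk_root _ hw (disj_lr _ _) univ_lr,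
        Finset.sum_image (fun x _ y _ e => Sum.inl_injective e),
        Finset.sum_eq_single A.S.c, tot_c]
      · norm_num
      · intro i _ hi; exact tot_l A.S B.S hi
      · intro h; exact absurd (Finset.mem_univ _) h
  obtain ⟨r, e, g, sr⟩ := h.use (w2 A.S B.S) hw _ gAB
    (by simp [LT.shape, shape_map, A.shape, B.shape])
    (by rw [LT.supp, supp_map, supp_map, A.supp, B.supp]; exact univ_lr)
  rcases r with i | ⟨u, v⟩
  · cases e
  · have h0 := count (F2 A.S B.S) (adj2 A.S B.S) k (.node u v) g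
    rw [sr] at h0
    have h0' := fk_two A.S B.S k
    have hA := A.hD k
    have hB := B.hD k
    obtain ⟨gu, gv, hdj, hl⟩ := g
    have hs : u.supp ∪ v.supp = Finset.univ := sr
    have e1 : u.shape = c := (Br.node.inj e).1
    have e2 : v.shape = d := (Br.node.inj e).2
    have huv : ¬ (Sum.inl A.S.c ∈ u.supp ∧ Sum.inr B.S.c ∈ u.supp) := by
      rintro ⟨h1, h2⟩
      have := lk_root _ hw hdj.symm (by rw [Finset.union_comm]; exact hs)
      rw [sum0 A.S B.S (fun h => Finset.disjoint_left.1 hdj h1 h)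
        (fun h => Finset.disjoint_left.1 hdj h2 h)] at this
      rw [lk_comm _ hw] at this
      exact hl (neg_eq_zero.1 this)
    have hvu : ¬ (Sum.inl A.S.c ∈ v.supp ∧ Sum.inr B.S.c ∈ v.supp) := by
      rintro ⟨h1, h2⟩
      have := lk_root _ hw hdj hs
      rw [sum0 A.S B.S (fun h => Finset.disjoint_left.1 hdj h h1)
        (fun h => Finset.disjoint_left.1 hdj h h2)] at this
      exact hl this
    have hcard : ∀ W : Finset (A.ι ⊕ B.ι), ¬ (Sum.inl A.S.c ∈ W ∧ Sum.inr B.S.c ∈ W) →
        (W ∩ {Sum.inl A.S.c, Sum.inr B.S.c}).card ≤ 1 := by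
      intro W hW
      rw [Finset.card_le_one]
      intro x hx y hy
      simp only [Finset.mem_inter, Finset.mem_insert, Finset.mem_singleton] at hx hy
      obtain ⟨hx1, hx2⟩ := hx
      obtain ⟨hy1, hy2⟩ := hy
      rcases hx2 with rfl | rfl <;> rcases hy2 with rfl | rfl
      · rfl
      · exact absurd ⟨hx1, hy1⟩ hW
      · exact absurd ⟨hy1, hx1⟩ hW
      · rfl
    have c1 := cn_eq k u gu (hcard _ huv)
    have c2 := cn_eq k v gv (hcard _ hvu)
    simp only [cn] at h0
    rw [c1, c2, e1, e2] at h0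
    omega

theorem root_deg' {a b c d : Br} (h : TE (.node a b) (.node c d)) :
    (a.deg = c.deg ∧ b.deg = d.deg) ∨ (a.deg = d.deg ∧ b.deg = c.deg) := by
  have h1 := fun k => root_le' h k
  have h2 := fun k => root_le' h.symm k
  have h3 := fun k => N_eq' h k
  have hd := h.1
  have a1 := h1 (min a.deg b.deg)
  have a3 := h3 (min a.deg b.deg)
  have b2 := h2 (min c.deg d.deg)
  have b3 := h3 (min c.deg d.deg)
  simp only [N] at a3 b3
  simp only [deg] at hd
  have m1 : min a.deg b.deg ≤ c.deg ∧ min a.deg b.deg ≤ d.deg := by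
    by_contra hc
    rw [if_neg hc, if_pos ⟨min_le_left _ _, min_le_right _ _⟩] at a3
    omega
  have m2 : min c.deg d.deg ≤ a.deg ∧ min c.deg d.deg ≤ b.deg := by
    by_contra hc
    rw [if_neg hc, if_pos ⟨min_le_left _ _, min_le_right _ _⟩] at b3
    omega
  omega

/-! ### balanced roots -/

section bal

variable {α β : Type} [DecidableEq α] [DecidableEq β]

lemma pull (f : α → β) (x : LT β) : (∀ i ∈ x.supp, ∃ a, f a = i) → ∃ y : LT α, y.map f = x := by
  induction x with
  | leaf i =>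
    intro h
    obtain ⟨a, ha⟩ := h i (by simp [LT.supp])
    exact ⟨.leaf a, by rw [LT.map, ha]⟩
  | node u v hu hv =>
    intro h
    obtain ⟨y, hy⟩ := hu (fun i hi => h i (Finset.mem_union_left _ hi))
    obtain ⟨z, hz⟩ := hv (fun i hi => h i (Finset.mem_union_right _ hi))
    exact ⟨.node y z, by rw [LT.map, hy, hz]⟩

lemma good_pull (f : α → β) (hf : Function.Injective f) (w : α → α → ℤ) (w' : β → β → ℤ)
    (h : ∀ a a', w' (f a) (f a') = w a a') (t : LT α) (ht : (t.map f).Good w') : t.Good w := by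
  induction t with
  | leaf i => trivial
  | node u v hu hv =>
    obtain ⟨gu, gv, hd, hl⟩ := ht
    refine ⟨hu gu, hv gv, ?_, ?_⟩
    · rw [supp_map, supp_map] at hd
      exact (Finset.disjoint_image hf).1 hd
    · rw [supp_map, supp_map, lk_image f hf w w' h] at hl
      exact hl

/-- join two forms by a single edge -/
def jw (w1 : α → α → ℤ) (w2 : β → β → ℤ) (i0 : α) (j0 : β) : α ⊕ β → α ⊕ β → ℤ
  | .inl a, .inl a' => w1 a a'
  | .inl a, .inr b => if a = i0 ∧ b = j0 then 1 else 0
  | .inr b, .inl a => - (if a = i0 ∧ b = j0 then 1 else 0)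
  | .inr b, .inr b' => w2 b b'

variable (w1 : α → α → ℤ) (w2 : β → β → ℤ) (i0 : α) (j0 : β)

lemma jw_anti (h1 : ∀ i k, w1 k i = - w1 i k) (h2 : ∀ i k, w2 k i = - w2 i k) (i k : α ⊕ β) :
    jw w1 w2 i0 j0 k i = - jw w1 w2 i0 j0 i k := by
  rcases i with a | b <;> rcases k with a' | b'
  · exact h1 a a'
  · rfl
  · exact (neg_neg _).symm
  · exact h2 b b'

lemma jw_ne {a : α} {b : β} (h : jw w1 w2 i0 j0 (.inl a) (.inr b) ≠ 0) : a = i0 ∧ b = j0 := by
  by_contra hc
  exact h (by simp only [jw, if_neg hc])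

lemma jw_ne' {a : α} {b : β} (h : jw w1 w2 i0 j0 (.inr b) (.inl a) ≠ 0) : a = i0 ∧ b = j0 := by
  by_contra hc
  exact h (by simp only [jw, if_neg hc, neg_zero])

lemma conn2 (x : LT (α ⊕ β)) (hx : x.Good (jw w1 w2 i0 j0)) :
    (∀ i ∈ x.supp, ∃ a, i = Sum.inl a) ∨ (∀ i ∈ x.supp, ∃ b, i = Sum.inr b) ∨
      (Sum.inl i0 ∈ x.supp ∧ Sum.inr j0 ∈ x.supp) := by
  induction x with
  | leaf i =>
    rcases i with a | b
    · left; intro i hi; simp only [LT.supp, Finset.mem_singleton] at hi; exact ⟨a, hi⟩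
    · right; left; intro i hi; simp only [LT.supp, Finset.mem_singleton] at hi; exact ⟨b, hi⟩
  | node u v hu hv =>
    obtain ⟨gu, gv, hd, hl⟩ := hx
    obtain ⟨i, hi, k, hk, hik⟩ := exists_adj hl
    simp only [LT.supp]
    rcases hu gu with h | h | h
    · rcases hv gv with h' | h' | h'
      · left; intro j hj; rcases Finset.mem_union.1 hj with hj | hj
        · exact h j hj
        · exact h' j hj
      · right; right
        obtain ⟨a, rfl⟩ := h i hi
        obtain ⟨b, rfl⟩ := h' k hk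
        obtain ⟨e1, e2⟩ := jw_ne w1 w2 i0 j0 hik
        rw [e1] at hi; rw [e2] at hk
        exact ⟨Finset.mem_union_left _ hi, Finset.mem_union_right _ hk⟩
      · right; right; exact ⟨Finset.mem_union_right _ h'.1, Finset.mem_union_right _ h'.2⟩
    · rcases hv gv with h' | h' | h'
      · right; right
        obtain ⟨b, rfl⟩ := h i hi
        obtain ⟨a, rfl⟩ := h' k hk
        obtain ⟨e1, e2⟩ := jw_ne' w1 w2 i0 j0 hik
        rw [e2] at hi; rw [e1] at hk
        exact ⟨Finset.mem_union_right _ hk, Finset.mem_union_left _ hi⟩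
      · right; left; intro j hj; rcases Finset.mem_union.1 hj with hj | hj
        · exact h j hj
        · exact h' j hj
      · right; right; exact ⟨Finset.mem_union_right _ h'.1, Finset.mem_union_right _ h'.2⟩
    · right; right; exact ⟨Finset.mem_union_left _ h.1, Finset.mem_union_left _ h.2⟩

variable [Fintype α] [Fintype β]

lemma split2 {u v : LT (α ⊕ β)} (g : (LT.node u v).Good (jw w1 w2 i0 j0))
    (hs : u.supp ∪ v.supp = Finset.univ) (hu : u.supp.card = Fintype.card α)
    (hv : v.supp.card = Fintype.card α) (hab : Fintype.card α = Fintype.card β) :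
    (u.supp = Finset.univ.image Sum.inl ∧ v.supp = Finset.univ.image Sum.inr) ∨
    (u.supp = Finset.univ.image Sum.inr ∧ v.supp = Finset.univ.image Sum.inl) := by
  obtain ⟨gu, gv, hd, hl⟩ := g
  have L : ∀ x : LT (α ⊕ β), x.supp.card = Fintype.card α → (∀ i ∈ x.supp, ∃ a, i = Sum.inl a) →
      x.supp = Finset.univ.image Sum.inl := by
    intro x hx h
    apply Finset.eq_of_subset_of_card_le
    · intro i hi
      obtain ⟨a, rfl⟩ := h i hi
      simp
    · rw [hx, Finset.card_image_of_injective _ Sum.inl_injective, Finset.card_univ]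
  have R : ∀ x : LT (α ⊕ β), x.supp.card = Fintype.card α → (∀ i ∈ x.supp, ∃ b, i = Sum.inr b) →
      x.supp = Finset.univ.image Sum.inr := by
    intro x hx h
    apply Finset.eq_of_subset_of_card_le
    · intro i hi
      obtain ⟨a, rfl⟩ := h i hi
      simp
    · rw [hx, Finset.card_image_of_injective _ Sum.inr_injective, Finset.card_univ, hab]
  have C1 : ∀ x y : LT (α ⊕ β), Disjoint x.supp y.supp → x.supp ∪ y.supp = Finset.univ →
      x.supp = Finset.univ.image Sum.inl → y.supp = Finset.univ.image Sum.inr := by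
    intro x y hxy hu hx
    ext j
    constructor
    · intro hj
      rcases j with a | b
      · exact absurd hj (Finset.disjoint_left.1 hxy (by rw [hx]; simp))
      · simp
    · intro hj
      have h1 : j ∈ x.supp ∪ y.supp := by rw [hu]; exact Finset.mem_univ _
      rcases Finset.mem_union.1 h1 with h1 | h1
      · rw [hx] at h1
        exact absurd hj (Finset.disjoint_left.1 (disj_lr _ _) h1)
      · exact h1
  have C2 : ∀ x y : LT (α ⊕ β), Disjoint x.supp y.supp → x.supp ∪ y.supp = Finset.univ →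
      x.supp = Finset.univ.image Sum.inr → y.supp = Finset.univ.image Sum.inl := by
    intro x y hxy hu hx
    exact supp_compl hxy.symm (by rw [Finset.union_comm]; exact hu) hx
  have hs' : v.supp ∪ u.supp = Finset.univ := by rw [Finset.union_comm]; exact hs
  rcases conn2 w1 w2 i0 j0 u gu with h | h | h
  · left; exact ⟨L u hu h, C1 u v hd hs (L u hu h)⟩
  · right; exact ⟨R u hu h, C2 u v hd hs (R u hu h)⟩
  · rcases conn2 w1 w2 i0 j0 v gv with h' | h' | h'
    · right; exact ⟨C1 v u hd.symm hs' (L v hv h'), L v hv h'⟩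
    · left; exact ⟨C2 v u hd.symm hs' (R v hv h'), R v hv h'⟩
    · exact absurd h'.1 (Finset.disjoint_left.1 hd h.1)

end bal

lemma pair1 {a b c d : Br} (h : TE (.node a b) (.node c d)) (hab : a.deg = b.deg)
    (hac : a.deg = c.deg) (had : a.deg = d.deg) (f g : Fm) (hf : f.Ok a) (hg : g.Ok b) :
    (f.Ok c ∧ g.Ok d) ∨ (f.Ok d ∧ g.Ok c) := by
  letI := f.dec
  letI := f.fin
  letI := g.dec
  letI := g.fin
  obtain ⟨x, gx, ex, sx⟩ := hf
  obtain ⟨y, gy, ey, sy⟩ := hg
  have cf : Fintype.card f.ι = a.deg := by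
    rw [← ex, ← supp_card f.w x gx, sx, Finset.card_univ]
  have cg : Fintype.card g.ι = b.deg := by
    rw [← ey, ← supp_card g.w y gy, sy, Finset.card_univ]
  obtain ⟨i0, _⟩ := supp_nonempty x
  obtain ⟨j0, _⟩ := supp_nonempty y
  have hw := jw_anti f.w g.w i0 j0 f.anti g.anti
  have gA := good_map (Sum.inl : f.ι → f.ι ⊕ g.ι) Sum.inl_injective f.w (jw f.w g.w i0 j0)
    (fun _ _ => rfl) x gx
  have gB := good_map (Sum.inr : g.ι → f.ι ⊕ g.ι) Sum.inr_injective g.w (jw f.w g.w i0 j0)
    (fun _ _ => rfl) y gy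
  have gAB : (LT.node (x.map (Sum.inl : f.ι → f.ι ⊕ g.ι)) (y.map Sum.inr)).Good
      (jw f.w g.w i0 j0) := by
    refine ⟨gA, gB, ?_, ?_⟩
    · rw [supp_map, supp_map]; exact disj_lr _ _
    · rw [supp_map, supp_map, sx, sy]
      simp only [lk]
      rw [Finset.sum_image (fun x _ y _ e => Sum.inl_injective e), Finset.sum_eq_single i0]
      · rw [Finset.sum_image (fun x _ y _ e => Sum.inr_injective e), Finset.sum_eq_single j0]
        · simp [jw]
        · intro b _ hb; simp [jw, hb]
        · intro h; exact absurd (Finset.mem_univ _) h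
      · intro a _ ha
        refine Finset.sum_eq_zero fun k hk => ?_
        obtain ⟨b, _, rfl⟩ := Finset.mem_image.1 hk
        simp [jw, ha]
      · intro h; exact absurd (Finset.mem_univ _) h
  obtain ⟨r, e, gr, sr⟩ := h.use (jw f.w g.w i0 j0) hw _ gAB
    (by simp [LT.shape, shape_map, ex, ey])
    (by rw [LT.supp, supp_map, supp_map, sx, sy]; exact univ_lr)
  rcases r with i | ⟨u, v⟩
  · cases e
  · have hs : u.supp ∪ v.supp = Finset.univ := sr
    have e1 : u.shape = c := (Br.node.inj e).1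
    have e2 : v.shape = d := (Br.node.inj e).2
    have d1 := supp_card _ u gr.1
    have d2 := supp_card _ v gr.2.1
    rw [e1] at d1
    rw [e2] at d2
    have PL : ∀ z : LT (f.ι ⊕ g.ι), z.Good (jw f.w g.w i0 j0) →
        z.supp = Finset.univ.image Sum.inl → f.Ok z.shape := by
      intro z gz sz
      obtain ⟨z', rfl⟩ := pull Sum.inl z (by
        intro i hi
        rw [sz] at hi
        obtain ⟨a, _, e⟩ := Finset.mem_image.1 hi
        exact ⟨a, e⟩)
      refine ⟨z', good_pull _ Sum.inl_injective f.w _ (fun _ _ => rfl) z' gz,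
        (shape_map _ z').symm, ?_⟩
      rw [supp_map] at sz
      exact Finset.image_injective Sum.inl_injective sz
    have PR : ∀ z : LT (f.ι ⊕ g.ι), z.Good (jw f.w g.w i0 j0) →
        z.supp = Finset.univ.image Sum.inr → g.Ok z.shape := by
      intro z gz sz
      obtain ⟨z', rfl⟩ := pull Sum.inr z (by
        intro i hi
        rw [sz] at hi
        obtain ⟨a, _, e⟩ := Finset.mem_image.1 hi
        exact ⟨a, e⟩)
      refine ⟨z', good_pull _ Sum.inr_injective g.w _ (fun _ _ => rfl) z' gz,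
        (shape_map _ z').symm, ?_⟩
      rw [supp_map] at sz
      exact Finset.image_injective Sum.inr_injective sz
    rcases split2 f.w g.w i0 j0 gr hs (by omega) (by omega) (by omega) with ⟨q1, q2⟩ | ⟨q1, q2⟩
    · left
      have p1 := PL u gr.1 q1
      have p2 := PR v gr.2.1 q2
      rw [e1] at p1
      rw [e2] at p2
      exact ⟨p1, p2⟩
    · right
      have p1 := PR u gr.1 q1
      have p2 := PL v gr.2.1 q2
      rw [e1] at p1
      rw [e2] at p2
      exact ⟨p2, p1⟩

lemma prod_aux {X : Type*} (A B C D : X → Prop) (hB : ∃ g, B g)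
    (H1 : ∀ f g, A f → B g → (C f ∧ D g) ∨ (D f ∧ C g))
    (H2 : ∀ f g, C f → D g → (A f ∧ B g) ∨ (B f ∧ A g))
    (f0 : X) (a0 : A f0) (b0 : ¬ B f0) (c0 : C f0) (d0 : ¬ D f0) :
    (∀ f, A f ↔ C f) ∧ (∀ f, B f ↔ D f) := by
  have h1 : ∀ g, B g → D g := by
    intro g hg
    rcases H1 f0 g a0 hg with h | h
    · exact h.2
    · exact absurd h.1 d0
  have h2 : ∀ g, D g → B g := by
    intro g hg
    rcases H2 f0 g c0 hg with h | h
    · exact h.2
    · exact absurd h.1 b0
  obtain ⟨g0, hg0⟩ := hB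
  refine ⟨fun f => ⟨fun ha => ?_, fun hc => ?_⟩, fun f => ⟨h1 f, h2 f⟩⟩
  · rcases H1 f g0 ha hg0 with h | h
    · exact h.1
    · rcases H1 f f ha (h2 f h.1) with h' | h'
      · exact h'.1
      · exact h'.2
  · rcases H2 f g0 hc (h1 g0 hg0) with h | h
    · exact h.1
    · rcases H2 f f hc (h1 f h.1) with h' | h'
      · exact h'.1
      · exact h'.2

lemma prod_eq {X : Type*} (A B C D : X → Prop) (hA : ∃ g, A g) (hB : ∃ g, B g)
    (hC : ∃ g, C g) (hD : ∃ g, D g)
    (H1 : ∀ f g, A f → B g → (C f ∧ D g) ∨ (D f ∧ C g))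
    (H2 : ∀ f g, C f → D g → (A f ∧ B g) ∨ (B f ∧ A g)) :
    ((∀ f, A f ↔ C f) ∧ (∀ f, B f ↔ D f)) ∨ ((∀ f, A f ↔ D f) ∧ (∀ f, B f ↔ C f)) := by
  have H1' : ∀ f g, A f → B g → (D f ∧ C g) ∨ (C f ∧ D g) := fun f g a b => (H1 f g a b).symm
  have H2' : ∀ f g, D f → C g → (A f ∧ B g) ∨ (B f ∧ A g) := by
    intro f g a b
    rcases H2 g f b a with h | h
    · exact Or.inr ⟨h.2, h.1⟩
    · exact Or.inl ⟨h.2, h.1⟩
  have K1 : ∀ f g, B f → A g → (C f ∧ D g) ∨ (D f ∧ C g) := by
    intro f g a b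
    rcases H1 g f b a with h | h
    · exact Or.inr ⟨h.2, h.1⟩
    · exact Or.inl ⟨h.2, h.1⟩
  have K2 : ∀ f g, C f → D g → (B f ∧ A g) ∨ (A f ∧ B g) := fun f g a b => (H2 f g a b).symm
  have K1' : ∀ f g, B f → A g → (D f ∧ C g) ∨ (C f ∧ D g) := fun f g a b => (K1 f g a b).symm
  have K2' : ∀ f g, D f → C g → (B f ∧ A g) ∨ (A f ∧ B g) := fun f g a b => (H2' f g a b).symm
  by_cases hAB : ∀ f, A f ↔ B f
  · left
    have q1 : ∀ f, A f → C f ∧ D f := by
      intro f hf
      rcases H1 f f hf ((hAB f).1 hf) with h | h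
      · exact h
      · exact ⟨h.2, h.1⟩
    obtain ⟨c1, hc1⟩ := hC
    obtain ⟨d1, hd1⟩ := hD
    have q2 : ∀ f, C f → A f := by
      intro f hf
      rcases H2 f d1 hf hd1 with h | h
      · exact h.1
      · exact (hAB f).2 h.1
    have q3 : ∀ f, D f → A f := by
      intro f hf
      rcases H2 c1 f hc1 hf with h | h
      · exact (hAB f).2 h.2
      · exact h.2
    exact ⟨fun f => ⟨fun h => (q1 f h).1, q2 f⟩, fun f => ⟨fun h => (q1 f ((hAB f).2 h)).2,
      fun h => (hAB f).1 (q3 f h)⟩⟩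
  · rw [not_forall] at hAB
    obtain ⟨f0, h0⟩ := hAB
    by_cases a0 : A f0
    · have b0 : ¬ B f0 := fun b => h0 ⟨fun _ => b, fun _ => a0⟩
      obtain ⟨g0, hg0⟩ := hB
      by_cases c0 : C f0
      · by_cases d0 : D f0
        · rcases H2 f0 f0 c0 d0 with h | h
          · exact absurd h.2 b0
          · exact absurd h.1 b0
        · left; exact prod_aux A B C D ⟨g0, hg0⟩ H1 H2 f0 a0 b0 c0 d0
      · have d0 : D f0 := by
          rcases H1 f0 g0 a0 hg0 with h | h
          · exact absurd h.1 c0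
          · exact h.1
        right; exact prod_aux A B D C ⟨g0, hg0⟩ H1' H2' f0 a0 b0 d0 c0
    · have b0 : B f0 := by
        by_contra b0
        exact h0 ⟨fun a => absurd a a0, fun b => absurd b b0⟩
      obtain ⟨g0, hg0⟩ := hA
      by_cases c0 : C f0
      · by_cases d0 : D f0
        · rcases H2 f0 f0 c0 d0 with h | h
          · exact absurd h.1 a0
          · exact absurd h.2 a0
        · right
          have := prod_aux B A C D ⟨g0, hg0⟩ K1 K2 f0 b0 a0 c0 d0
          exact ⟨this.2, this.1⟩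
      · have d0 : D f0 := by
          rcases K1 f0 g0 b0 hg0 with h | h
          · exact absurd h.1 c0
          · exact h.1
        left
        have := prod_aux B A D C ⟨g0, hg0⟩ K1' K2' f0 b0 a0 d0 c0
        exact ⟨this.2, this.1⟩

lemma exists_ok (s : Br) : ∃ f : Fm, f.Ok s := by
  obtain ⟨A⟩ := exists_model s
  exact ⟨⟨A.ι, A.dec, A.fin, @St.w A.ι A.dec A.fin A.S, fun i k => @St.w_anti A.ι A.dec A.fin A.S i k⟩,
    A.t, A.good, A.shape, A.supp⟩

/-- the factors of a balanced root are test equivalent in pairs -/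
theorem te_factors {a b c d : Br} (h : TE (.node a b) (.node c d)) (hab : a.deg = b.deg) :
    (TE a c ∧ TE b d) ∨ (TE a d ∧ TE b c) := by
  have hdeg := root_deg' h
  have hac : a.deg = c.deg := by omega
  have had : a.deg = d.deg := by omega
  have h1 := pair1 h hab hac had
  have h2 := pair1 h.symm (by omega) (by omega) (by omega)
  rcases prod_eq (fun f : Fm => f.Ok a) (fun f => f.Ok b) (fun f => f.Ok c) (fun f => f.Ok d)
    (exists_ok a) (exists_ok b) (exists_ok c) (exists_ok d) h1 h2 with h | h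
  · left; exact ⟨⟨hac, h.1⟩, ⟨by omega, h.2⟩⟩
  · right; exact ⟨⟨had, h.1⟩, ⟨by omega, h.2⟩⟩

end Pool.Agent.R192.LM
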