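import Mathlib

set_option autoImplicit false
set_option linter.all false

namespace Pool.Agent.R192.LM

universe u

attribute [local instance 100] LieRing.ofAssociativeRing

/-- Bracket structures: full binary bracketings of a word `x_1 x_2 ... x_n`. -/
inductive Br : Type
  | leaf : Br
  | node : Br → Br → Br

namespace Br

/-- The degree (number of letters). -/
def deg : Br → ℕ
  | leaf => 1
  | node l r => deg l + deg r

/-- The multilinear Lie monomial `w_σ` evaluated at `x 0, x 1, ..., x (deg σ - 1)`. -/
def ev {A : Type*} [Bracket A A] : Br → (ℕ → A) → A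
  | leaf, x => x 0
  | node l r, x => ⁅ev l x, ev r (fun i => x (i + deg l))⁆

end Br

open Br

/-- The identity `w_σ = 0` holds in `A`. -/
def Holds (A : Type*) [LieRing A] (s : Br) : Prop := ∀ x : ℕ → A, ev s x = 0

/-- The identities `w_σ = 0` and `w_τ = 0` hold in exactly the same Lie algebras over `K`. -/
def EquivId (K : Type u) [Field K] (s t : Br) : Prop :=
  ∀ (A : Type u) [LieRing A] [LieAlgebra K A], Holds A s ↔ Holds A t

lemma deg_pos (s : Br) : 1 ≤ s.deg := by
  induction s with
  | leaf => simp [deg]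
  | node l r hl hr => simp only [deg]; omega

lemma ev_congr {A : Type*} [Bracket A A] (s : Br) : ∀ x y : ℕ → A,
    (∀ i < s.deg, x i = y i) → ev s x = ev s y := by
  induction s with
  | leaf => intro x y h; exact h 0 (by simp [deg])
  | node l r hl hr =>
    intro x y h
    simp only [ev]
    rw [hl x y (fun i hi => h i (by simp only [deg]; omega)),
      hr _ (fun i => y (i + l.deg)) (fun i hi => h _ (by simp only [deg]; omega))]

/-- labelled trees -/
inductive LT (ι : Type) : Type
  | leaf : ι → LT ι
  | node : LT ι → LT ι → LT ι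

namespace LT

variable {ι : Type} [DecidableEq ι]

def shape : LT ι → Br
  | leaf _ => Br.leaf
  | node u v => Br.node (shape u) (shape v)

def supp : LT ι → Finset ι
  | leaf i => {i}
  | node u v => supp u ∪ supp v

end LT

variable {ι : Type} [DecidableEq ι]

/-- the form on sets -/
def lk (w : ι → ι → ℤ) (P Q : Finset ι) : ℤ := ∑ i ∈ P, ∑ k ∈ Q, w i k

def LT.Good (w : ι → ι → ℤ) : LT ι → Prop
  | .leaf _ => True
  | .node u v => LT.Good w u ∧ LT.Good w v ∧ Disjoint u.supp v.supp ∧ lk w u.supp v.supp ≠ 0

open Polynomial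

section alg

variable (K : Type u) [Field K] (w : ι → ι → ℤ)

def ex (P U : Finset ι) : ℕ := ∑ i ∈ P, ∑ k ∈ U, (w i k).toNat

lemma ex_union_right {P Q U : Finset ι} (h : Disjoint Q U) :
    ex w P (Q ∪ U) = ex w P Q + ex w P U := by
  simp only [ex]
  rw [← Finset.sum_add_distrib]
  refine Finset.sum_congr rfl fun i _ => ?_
  rw [Finset.sum_union h]

lemma ex_union_left {P Q U : Finset ι} (h : Disjoint P Q) :
    ex w (P ∪ Q) U = ex w P U + ex w Q U := by
  simp only [ex]
  rw [Finset.sum_union h]

lemma ex_sub (hw : ∀ i k, w k i = - w i k) (P Q : Finset ι) :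
    (ex w P Q : ℤ) - ex w Q P = lk w P Q := by
  simp only [ex, lk]
  rw [Finset.sum_comm (s := Q)]
  push_cast
  rw [← Finset.sum_sub_distrib]
  refine Finset.sum_congr rfl fun i _ => ?_
  rw [← Finset.sum_sub_distrib]
  refine Finset.sum_congr rfl fun k _ => ?_
  rw [hw i k]
  omega

/-- the operators -/
noncomputable def E (P : Finset ι) : Module.End K[X] (Finset ι →₀ K[X]) :=
  Finsupp.linearCombination K[X] (fun U : Finset ι =>
    if Disjoint P U then Finsupp.single (P ∪ U) ((X : K[X]) ^ ex w P U) else 0)

lemma E_single (P U : Finset ι) : E K w P (Finsupp.single U 1) =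
    if Disjoint P U then Finsupp.single (P ∪ U) ((X : K[X]) ^ ex w P U) else 0 := by
  simp [E, Finsupp.linearCombination_single]

lemma E_single' (P U : Finset ι) (c : K[X]) : E K w P (Finsupp.single U c) =
    if Disjoint P U then Finsupp.single (P ∪ U) (c * (X : K[X]) ^ ex w P U) else 0 := by
  simp only [E, Finsupp.linearCombination_single]
  split_ifs <;> simp

lemma E_mul (P Q : Finset ι) : E K w P * E K w Q =
    if Disjoint P Q then ((X : K[X]) ^ ex w P Q) • E K w (P ∪ Q) else 0 := by
  apply Finsupp.lhom_ext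
  intro U c
  rw [Module.End.mul_apply, E_single']
  by_cases hQU : Disjoint Q U
  · rw [if_pos hQU, E_single']
    by_cases hPQ : Disjoint P Q
    · rw [if_pos hPQ, LinearMap.smul_apply, E_single']
      by_cases hPU : Disjoint P U
      · rw [if_pos (Finset.disjoint_union_right.2 ⟨hPQ, hPU⟩),
          if_pos (Finset.disjoint_union_left.2 ⟨hPU, hQU⟩), Finset.union_assoc,
          ex_union_right w hQU, ex_union_left w hPQ, Finsupp.smul_single]
        congr 1
        rw [smul_eq_mul]
        ring
      · rw [if_neg (fun h => hPU (Finset.disjoint_union_right.1 h).2),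
          if_neg (fun h => hPU (Finset.disjoint_union_left.1 h).1), smul_zero]
    · rw [if_neg hPQ, if_neg (fun h => hPQ (Finset.disjoint_union_right.1 h).1),
        LinearMap.zero_apply]
  · rw [if_neg hQU, map_zero]
    split_ifs with hPQ
    · rw [LinearMap.smul_apply, E_single', if_neg (fun h => hQU (Finset.disjoint_union_left.1 h).2),
        smul_zero]
    · rfl

end alg

section br
variable {R A : Type*} [CommRing R] [Ring A] [Algebra R A]
lemma b_z (a : A) : ⁅a, (0 : A)⁆ = 0 := by rw [Ring.lie_def, mul_zero, zero_mul, sub_zero]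
lemma z_b (a : A) : ⁅(0 : A), a⁆ = 0 := by rw [Ring.lie_def, mul_zero, zero_mul, sub_zero]
lemma b_a (a b c : A) : ⁅a, b + c⁆ = ⁅a, b⁆ + ⁅a, c⁆ := by
  simp only [Ring.lie_def]; noncomm_ring
lemma a_b (a b c : A) : ⁅a + b, c⁆ = ⁅a, c⁆ + ⁅b, c⁆ := by
  simp only [Ring.lie_def]; noncomm_ring
lemma b_s (r : R) (a b : A) : ⁅a, r • b⁆ = r • ⁅a, b⁆ := by
  simp only [Ring.lie_def, mul_smul_comm, smul_mul_assoc, smul_sub]
lemma s_b (r : R) (a b : A) : ⁅r • a, b⁆ = r • ⁅a, b⁆ := by
  simp only [Ring.lie_def, mul_smul_comm, smul_mul_assoc, smul_sub]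
end br

/-- the sets that can occur -/
def GG (w : ι → ι → ℤ) : Br → Finset ι → Prop
  | .leaf, _ => True
  | .node l r, S => ∃ P Q : Finset ι, Disjoint P Q ∧ P ∪ Q = S ∧ lk w P Q ≠ 0 ∧
      GG w l P ∧ GG w r Q

lemma coe_ev (K : Type u) [Field K] {A : Type*} [LieRing A] [LieAlgebra K A]
    (L : LieSubalgebra K A) (s : Br) :
    ∀ x : ℕ → L, ((ev s x : L) : A) = ev s (fun i => (x i : A)) := by
  induction s with
  | leaf => intro x; rfl
  | node l r hl hr =>
    intro x
    simp only [ev, LieSubalgebra.coe_bracket]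
    rw [hl, hr]

/-- the assignment of a labelled tree -/
def asg : LT ι → ℕ → Finset ι
  | .leaf i, _ => {i}
  | .node u v, n => if n < u.shape.deg then asg u n else asg v (n - u.shape.deg)

section abs

variable (K : Type u) [Field K] (w : ι → ι → ℤ)
  {A : Type u} [Ring A] [Algebra K[X] A] [Algebra K A] [IsScalarTower K K[X] A]
  (F : Finset ι → A)
  (hF : ∀ P Q, F P * F Q = if Disjoint P Q then ((X : K[X]) ^ ex w P Q) • F (P ∪ Q) else 0)
  (hne : ∀ (c : K[X]) (P : Finset ι), c • F P = 0 → c = 0)

include hF in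
lemma F_lie (P Q : Finset ι) : ⁅F P, F Q⁆ =
    if Disjoint P Q then ((X : K[X]) ^ ex w P Q - (X : K[X]) ^ ex w Q P) • F (P ∪ Q)
      else 0 := by
  rw [Ring.lie_def, hF, hF]
  by_cases h : Disjoint P Q
  · rw [if_pos h, if_pos h.symm, if_pos h, Finset.union_comm Q P, sub_smul]
  · rw [if_neg h, if_neg (fun h' => h h'.symm), if_neg h, sub_zero]

include hF in
lemma ev_mem (hw : ∀ i k, w k i = - w i k) (s : Br) :
    ∀ x : ℕ → A,
    (∀ i, x i ∈ Submodule.span K[X] (Set.range F)) →
    ev s x ∈ Submodule.span K[X] (F '' {S | GG w s S}) := by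
  induction s with
  | leaf =>
    intro x hx
    have : F '' {S | GG w Br.leaf S} = Set.range F := by
      ext y; simp [GG]
    rw [this]
    exact hx 0
  | node l r hl hr =>
    intro x hx
    have h1 := hl x hx
    have h2 := hr (fun i => x (i + l.deg)) (fun i => hx _)
    simp only [ev]
    revert h1 h2
    generalize ev l x = a
    generalize ev r (fun i => x (i + l.deg)) = b
    intro h1 h2
    induction h1 using Submodule.span_induction with
    | mem a ha =>
      obtain ⟨P, hP, rfl⟩ := ha
      induction h2 using Submodule.span_induction with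
      | mem b hb =>
        obtain ⟨Q, hQ, rfl⟩ := hb
        rw [F_lie K w F hF]
        split_ifs with hd
        · by_cases h0 : lk w P Q = 0
          · have := ex_sub w hw P Q
            have h3 : ex w P Q = ex w Q P := by omega
            rw [h3, sub_self, zero_smul]
            exact zero_mem _
          · exact Submodule.smul_mem _ _ (Submodule.subset_span
              ⟨P ∪ Q, ⟨P, Q, hd, rfl, h0, hP, hQ⟩, rfl⟩)
        · exact zero_mem _
      | zero => rw [b_z]; exact zero_mem _
      | add a b _ _ iha ihb => rw [b_a]; exact add_mem iha ihb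
      | smul c a _ iha => rw [b_s]; exact Submodule.smul_mem _ _ iha
    | zero => rw [z_b]; exact zero_mem _
    | add a b _ _ iha ihb => rw [a_b]; exact add_mem iha ihb
    | smul c a _ iha => rw [s_b]; exact Submodule.smul_mem _ _ iha

/-- the test algebra -/
noncomputable def TA : LieSubalgebra K A :=
  { (Submodule.span K[X] (Set.range F)).restrictScalars K with
    lie_mem' := by
      intro x y hx hy
      simp only [AddSubsemigroup.mem_carrier, AddSubmonoid.mem_toSubsemigroup,
        Submodule.mem_toAddSubmonoid, Submodule.restrictScalars_mem] at hx hy ⊢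
      induction hx using Submodule.span_induction with
      | mem a ha =>
        obtain ⟨P, rfl⟩ := ha
        induction hy using Submodule.span_induction with
        | mem b hb =>
          obtain ⟨Q, rfl⟩ := hb
          rw [F_lie K w F hF]
          split_ifs with hd
          · exact Submodule.smul_mem _ _ (Submodule.subset_span ⟨P ∪ Q, rfl⟩)
          · exact zero_mem _
        | zero => rw [b_z]; exact zero_mem _
        | add a b _ _ iha ihb => rw [b_a]; exact add_mem iha ihb
        | smul c a _ iha => rw [b_s]; exact Submodule.smul_mem _ _ iha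
      | zero => rw [z_b]; exact zero_mem _
      | add a b _ _ iha ihb => rw [a_b]; exact add_mem iha ihb
      | smul c a _ iha => rw [s_b]; exact Submodule.smul_mem _ _ iha }

lemma mem_TA (x : A) :
    x ∈ TA K w F hF ↔ x ∈ Submodule.span K[X] (Set.range F) := Iff.rfl

lemma holds_of (hw : ∀ i k, w k i = - w i k) (s : Br) (h : ∀ S, ¬ GG w s S) :
    Holds (TA K w F hF) s := by
  intro x
  have h1 := ev_mem K w F hF hw s (fun i => (x i : A))
    (fun i => (mem_TA K w F hF _).1 (x i).2)
  have h2 : {S | GG w s S} = ∅ := by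
    ext S; simp [h S]
  rw [h2, Set.image_empty, Submodule.span_empty, Submodule.mem_bot, ← coe_ev] at h1
  exact Subtype.ext h1

include hF in
lemma ev_asg (hw : ∀ i k, w k i = - w i k) (t : LT ι) (ht : t.Good w) :
    ∃ c : K[X], c ≠ 0 ∧ ev t.shape (fun n => F (asg t n)) = c • F t.supp := by
  induction t with
  | leaf i => exact ⟨1, one_ne_zero, by simp [LT.shape, ev, asg, LT.supp]⟩
  | node u v hu hv =>
    obtain ⟨gu, gv, hd, hl⟩ := ht
    obtain ⟨c, hc, hc'⟩ := hu gu
    obtain ⟨d, hd0, hd'⟩ := hv gv
    refine ⟨c * d * ((X : K[X]) ^ ex w u.supp v.supp - (X : K[X]) ^ ex w v.supp u.supp), ?_, ?_⟩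
    · refine mul_ne_zero (mul_ne_zero hc hd0) ?_
      rw [sub_ne_zero]
      intro h
      have h1 := congrArg natDegree h
      rw [natDegree_X_pow, natDegree_X_pow] at h1
      have := ex_sub w hw u.supp v.supp
      apply hl
      omega
    · simp only [LT.shape, ev, LT.supp]
      have h1 : ev u.shape (fun n => F (asg (u.node v) n)) =
          ev u.shape (fun n => F (asg u n)) := by
        apply ev_congr
        intro i hi
        simp only [asg, if_pos hi]
      have h2 : ev v.shape (fun n => F (asg (u.node v) (n + u.shape.deg))) =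
          ev v.shape (fun n => F (asg v n)) := by
        apply ev_congr
        intro i hi
        simp only [asg]
        rw [if_neg (by omega), Nat.add_sub_cancel]
      rw [h1, h2, hc', hd', s_b, b_s, F_lie K w F hF, if_pos hd, smul_smul, smul_smul]

include hne in
lemma not_holds (hw : ∀ i k, w k i = - w i k) (t : LT ι) (ht : t.Good w) :
    ¬ Holds (TA K w F hF) t.shape := by
  intro h
  obtain ⟨c, hc, hc'⟩ := ev_asg K w F hF hw t ht
  have h1 := h (fun n => ⟨F (asg t n), (mem_TA K w F hF _).2 (Submodule.subset_span ⟨_, rfl⟩)⟩)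
  have h2 := congrArg (Subtype.val) h1
  rw [coe_ev] at h2
  have h3 : c • F t.supp = 0 := by rw [← hc']; exact h2
  exact hc (hne c _ h3)

end abs

lemma E_ne (K : Type u) [Field K] (w : ι → ι → ℤ) (c : K[X]) (P : Finset ι)
    (h : c • E K w P = 0) : c = 0 := by
  have h4 := congrArg (fun f : Module.End K[X] (Finset ι →₀ K[X]) =>
    f (Finsupp.single ∅ 1) P) h
  simp only [LinearMap.smul_apply, E_single, LinearMap.zero_apply, Finset.disjoint_empty_right,
    if_true, Finset.union_empty, Finsupp.smul_apply, Finsupp.single_eq_same, Finsupp.coe_zero,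
    Pi.zero_apply, smul_eq_mul] at h4
  have h5 : ex w P ∅ = 0 := by simp [ex]
  rw [h5, pow_zero, mul_one] at h4
  exact h4



lemma lk_empty_left (w : ι → ι → ℤ) (Q : Finset ι) : lk w ∅ Q = 0 := by simp [lk]
lemma lk_empty_right (w : ι → ι → ℤ) (P : Finset ι) : lk w P ∅ = 0 := by simp [lk]

lemma GG_card (w : ι → ι → ℤ) (s : Br) : ∀ S : Finset ι, GG w s S → S.Nonempty →
    s.deg ≤ S.card := by
  induction s with
  | leaf => intro S _ h; simpa [deg] using h.card_pos
  | node l r hl hr =>
    rintro S ⟨P, Q, hd, rfl, h0, hP, hQ⟩ _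
    have hPn : P.Nonempty := by
      rw [Finset.nonempty_iff_ne_empty]; rintro rfl; exact h0 (lk_empty_left w Q)
    have hQn : Q.Nonempty := by
      rw [Finset.nonempty_iff_ne_empty]; rintro rfl; exact h0 (lk_empty_right w P)
    rw [Finset.card_union_of_disjoint hd]
    simp only [deg]
    have := hl P hP hPn
    have := hr Q hQ hQn
    omega

lemma exists_tree (w : ι → ι → ℤ) (s : Br) : ∀ S : Finset ι, GG w s S → S.Nonempty →
    S.card ≤ s.deg → ∃ t : LT ι, t.shape = s ∧ t.Good w ∧ t.supp = S := by
  induction s with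
  | leaf =>
    intro S _ h h1
    simp only [deg] at h1
    obtain ⟨i, hi⟩ := Finset.card_eq_one.1 (le_antisymm h1 h.card_pos)
    exact ⟨.leaf i, rfl, trivial, hi.symm⟩
  | node l r hl hr =>
    rintro S ⟨P, Q, hd, rfl, h0, hP, hQ⟩ _ h1
    have hPn : P.Nonempty := by
      rw [Finset.nonempty_iff_ne_empty]; rintro rfl; exact h0 (lk_empty_left w Q)
    have hQn : Q.Nonempty := by
      rw [Finset.nonempty_iff_ne_empty]; rintro rfl; exact h0 (lk_empty_right w P)
    rw [Finset.card_union_of_disjoint hd] at h1
    simp only [deg] at h1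
    have h2 := GG_card w l P hP hPn
    have h3 := GG_card w r Q hQ hQn
    obtain ⟨t1, e1, g1, s1⟩ := hl P hP hPn (by omega)
    obtain ⟨t2, e2, g2, s2⟩ := hr Q hQ hQn (by omega)
    refine ⟨.node t1 t2, by simp [LT.shape, e1, e2], ⟨g1, g2, ?_, ?_⟩, by simp [LT.supp, s1, s2]⟩
    · rw [s1, s2]; exact hd
    · rw [s1, s2]; exact h0

lemma supp_card (w : ι → ι → ℤ) (t : LT ι) (ht : t.Good w) : t.supp.card = t.shape.deg := by
  induction t with
  | leaf i => simp [LT.supp, LT.shape, deg]
  | node u v hu hv =>
    obtain ⟨gu, gv, hd, hl⟩ := ht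
    simp only [LT.supp, LT.shape, deg]
    rw [Finset.card_union_of_disjoint hd, hu gu, hv gv]

lemma supp_nonempty (t : LT ι) : t.supp.Nonempty := by
  induction t with
  | leaf i => simp [LT.supp]
  | node u v hu hv => simp only [LT.supp]; exact hu.mono Finset.subset_union_left

/-- **The test.** -/
theorem test (K : Type u) [Field K] [Fintype ι] (w : ι → ι → ℤ) (hw : ∀ i k, w k i = - w i k)
    {s t : Br} (h : EquivId K s t) (hd : t.deg = Fintype.card ι)
    (a : LT ι) (ha : a.Good w) (has : a.shape = s) :
    ∃ b : LT ι, b.shape = t ∧ b.Good w ∧ b.supp = Finset.univ := by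
  by_contra hcon
  have h1 : ¬ Holds (TA K w (A := Module.End K[X] (Finset ι →₀ K[X])) (E K w) (E_mul K w)) s :=
    has ▸ not_holds K w (E K w) (E_mul K w) (E_ne K w) hw a ha
  apply h1
  rw [h]
  apply holds_of K w (E K w) (E_mul K w) hw
  intro S hS
  rcases t with _ | ⟨l, r⟩
  · obtain ⟨i, hi⟩ := supp_nonempty a
    have hc : Fintype.card ι = 1 := by rw [← hd]; rfl
    apply hcon
    refine ⟨.leaf i, rfl, trivial, ?_⟩
    have : Subsingleton ι := Fintype.card_le_one_iff_subsingleton.1 hc.le
    ext j
    simp [LT.supp, Subsingleton.elim j i]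
  · have hne : S.Nonempty := by
      obtain ⟨P, Q, hd', rfl, h0, hP, hQ⟩ := hS
      have hPn : P.Nonempty := by
        rw [Finset.nonempty_iff_ne_empty]; rintro rfl; exact h0 (lk_empty_left w Q)
      exact hPn.mono Finset.subset_union_left
    have hle : S.card ≤ (Br.node l r).deg := by rw [hd]; exact Finset.card_le_univ S
    obtain ⟨b, e, g, sb⟩ := exists_tree w _ S hS hne hle
    apply hcon
    refine ⟨b, e, g, ?_⟩
    rw [← Finset.card_eq_iff_eq_univ, supp_card w b g, e, hd]

end Pool.Agent.R192.LM
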