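import Pool.Agent.R192.LM.Count

set_option autoImplicit false
set_option linter.all false

namespace Pool.Agent.R192.LM

universe u

open Br

/-- rooted trees on a finite set -/
structure St (ι : Type) [DecidableEq ι] [Fintype ι] where
  c : ι
  par : ι → ι
  desc : ι → Finset ι
  rk : ι → ℕ
  self_mem : ∀ i, i ∈ desc i
  desc_c : desc c = Finset.univ
  c_nmem : ∀ y, y ≠ c → c ∉ desc y
  desc_par : ∀ i y, i ≠ c → par i ∈ desc y → i ∈ desc y
  rk_c : rk c = 0
  rk_lt : ∀ i, i ≠ c → rk (par i) < rk i
  desc_up : ∀ j y, j ∈ desc y → j ≠ y → j ≠ c ∧ par j ∈ desc y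

namespace St

variable {ι κ : Type} [DecidableEq ι] [Fintype ι] [DecidableEq κ] [Fintype κ]

/-- the one point tree -/
def pt : St Unit where
  c := ()
  par := id
  desc := fun _ => Finset.univ
  rk := fun _ => 0
  self_mem := fun _ => Finset.mem_univ _
  desc_c := rfl
  c_nmem := fun y hy => absurd rfl hy
  desc_par := fun _ _ _ _ => Finset.mem_univ _
  rk_c := rfl
  rk_lt := fun i hi => absurd rfl hi
  desc_up := fun j y _ h => absurd rfl h

def jpar (S : St ι) (T : St κ) : ι ⊕ κ → ι ⊕ κ
  | .inl a => .inl (S.par a)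
  | .inr b => if b = T.c then .inl S.c else .inr (T.par b)

def jdesc (S : St ι) (T : St κ) : ι ⊕ κ → Finset (ι ⊕ κ)
  | .inl a => if a = S.c then Finset.univ else (S.desc a).image Sum.inl
  | .inr b => (T.desc b).image Sum.inr

def jrk (S : St ι) (T : St κ) : ι ⊕ κ → ℕ
  | .inl a => S.rk a
  | .inr b => T.rk b + 1

/-- hang the tree `T` at the root of `S` -/
def join (S : St ι) (T : St κ) : St (ι ⊕ κ) where
  c := Sum.inl S.c
  par := jpar S T
  desc := jdesc S T
  rk := jrk S T
  self_mem := by
    rintro (a | b)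
    · simp only [jdesc]; split_ifs
      · exact Finset.mem_univ _
      · exact Finset.mem_image_of_mem _ (S.self_mem a)
    · exact Finset.mem_image_of_mem _ (T.self_mem b)
  desc_c := by simp [jdesc]
  c_nmem := by
    rintro (a | b) hy hm
    · have ha : a ≠ S.c := fun e => hy (by rw [e])
      simp only [jdesc, if_neg ha, Finset.mem_image] at hm
      obtain ⟨c, hc, e⟩ := hm
      rw [Sum.inl.inj e] at hc
      exact S.c_nmem a ha hc
    · simp only [jdesc, Finset.mem_image] at hm
      obtain ⟨c, hc, e⟩ := hm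
      cases e
  desc_par := by
    rintro (a | b) (a' | b') hi hm
    · have ha : a ≠ S.c := fun e => hi (by rw [e])
      simp only [jdesc, jpar] at hm ⊢
      split_ifs at hm ⊢ with h
      · exact Finset.mem_univ _
      · rw [Finset.mem_image] at hm
        obtain ⟨c, hc, e⟩ := hm
        rw [Sum.inl.inj e] at hc
        exact Finset.mem_image_of_mem _ (S.desc_par a a' ha hc)
    · simp only [jdesc, jpar, Finset.mem_image] at hm
      obtain ⟨c, hc, e⟩ := hm
      cases e
    · simp only [jdesc, jpar] at hm ⊢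
      by_cases h : a' = S.c
      · rw [if_pos h]; exact Finset.mem_univ _
      · rw [if_neg h] at hm
        by_cases hb : b = T.c
        · rw [if_pos hb, Finset.mem_image] at hm
          obtain ⟨c, hc, e⟩ := hm
          rw [Sum.inl.inj e] at hc
          exact absurd hc (S.c_nmem a' h)
        · rw [if_neg hb, Finset.mem_image] at hm
          obtain ⟨c, hc, e⟩ := hm
          cases e
    · simp only [jdesc, jpar] at hm ⊢
      by_cases hb : b = T.c
      · rw [if_pos hb, Finset.mem_image] at hm
        obtain ⟨c, hc, e⟩ := hm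
        cases e
      · rw [if_neg hb, Finset.mem_image] at hm
        obtain ⟨c, hc, e⟩ := hm
        rw [Sum.inr.inj e] at hc
        exact Finset.mem_image_of_mem _ (T.desc_par b b' hb hc)
  rk_c := S.rk_c
  rk_lt := by
    rintro (a | b) hi
    · have ha : a ≠ S.c := fun e => hi (by rw [e])
      exact S.rk_lt a ha
    · simp only [jpar]
      by_cases hb : b = T.c
      · rw [if_pos hb]
        simp only [jrk, S.rk_c]
        omega
      · rw [if_neg hb]
        have := T.rk_lt b hb
        simp only [jrk]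
        omega
  desc_up := by
    rintro j (a | b) hj hne
    · by_cases ha : a = S.c
      · refine ⟨fun e => hne (by rw [e, ha]), ?_⟩
        simp only [jdesc]; rw [if_pos ha]; exact Finset.mem_univ _
      · simp only [jdesc] at hj ⊢
        rw [if_neg ha] at hj ⊢
        obtain ⟨j', hj', rfl⟩ := Finset.mem_image.1 hj
        have h1 := S.desc_up j' a hj' (fun e => hne (by rw [e]))
        exact ⟨fun e => h1.1 (Sum.inl.inj e), Finset.mem_image_of_mem _ h1.2⟩
    · simp only [jdesc] at hj ⊢
      obtain ⟨j', hj', rfl⟩ := Finset.mem_image.1 hj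
      have h1 := T.desc_up j' b hj' (fun e => hne (by rw [e]))
      refine ⟨fun e => (by cases e), ?_⟩
      simp only [jpar]
      rw [if_neg h1.1]
      exact Finset.mem_image_of_mem _ h1.2

/-- the number of vertices other than the root with at least `k` descendants -/
def D (S : St ι) (k : ℕ) : ℕ :=
  (Finset.univ.filter (fun y => y ≠ S.c ∧ k ≤ (S.desc y).card)).card

lemma D_join (S : St ι) (T : St κ) (k : ℕ) (h : Fintype.card κ ≤ Fintype.card ι) :
    (S.join T).D k ≤ S.D k + T.D k +
      (if k ≤ Fintype.card ι ∧ k ≤ Fintype.card κ then 1 else 0) := by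
  simp only [D]
  have key : (Finset.univ.filter (fun y => y ≠ (S.join T).c ∧ k ≤ ((S.join T).desc y).card)) ⊆
      ((Finset.univ.filter (fun y => y ≠ S.c ∧ k ≤ (S.desc y).card)).image Sum.inl ∪
      (Finset.univ.filter (fun y => y ≠ T.c ∧ k ≤ (T.desc y).card)).image Sum.inr) ∪
      (if k ≤ Fintype.card ι ∧ k ≤ Fintype.card κ then {Sum.inr T.c} else ∅) := by
    rintro (a | b) hy
    · obtain ⟨-, h1, h2⟩ := Finset.mem_filter.1 hy
      have ha : a ≠ S.c := fun e => h1 (by rw [e]; rfl)
      have e : (S.join T).desc (Sum.inl a) = (S.desc a).image Sum.inl := by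
        simp only [join, jdesc, if_neg ha]
      rw [e, Finset.card_image_of_injective _ Sum.inl_injective] at h2
      exact Finset.mem_union_left _ (Finset.mem_union_left _ (Finset.mem_image_of_mem _
        (Finset.mem_filter.2 ⟨Finset.mem_univ _, ha, h2⟩)))
    · obtain ⟨-, h1, h2⟩ := Finset.mem_filter.1 hy
      have e : (S.join T).desc (Sum.inr b) = (T.desc b).image Sum.inr := rfl
      rw [e, Finset.card_image_of_injective _ Sum.inr_injective] at h2
      by_cases hb : b = T.c
      · have := Finset.card_le_univ (T.desc b)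
        rw [if_pos ⟨by omega, by omega⟩, hb]
        exact Finset.mem_union_right _ (Finset.mem_singleton_self _)
      · exact Finset.mem_union_left _ (Finset.mem_union_right _ (Finset.mem_image_of_mem _
          (Finset.mem_filter.2 ⟨Finset.mem_univ _, hb, h2⟩)))
  refine (Finset.card_le_card key).trans ?_
  refine (Finset.card_union_le _ _).trans ?_
  have h1 : (if k ≤ Fintype.card ι ∧ k ≤ Fintype.card κ then
      ({Sum.inr T.c} : Finset (ι ⊕ κ)) else ∅).card ≤
      (if k ≤ Fintype.card ι ∧ k ≤ Fintype.card κ then 1 else 0) := by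
    split_ifs <;> simp
  have h2 := Finset.card_union_le
    ((Finset.univ.filter (fun y => y ≠ S.c ∧ k ≤ (S.desc y).card)).image (Sum.inl : ι → ι ⊕ κ))
    ((Finset.univ.filter (fun y => y ≠ T.c ∧ k ≤ (T.desc y).card)).image (Sum.inr : κ → ι ⊕ κ))
  rw [Finset.card_image_of_injective _ Sum.inl_injective,
    Finset.card_image_of_injective _ Sum.inr_injective] at h2
  exact add_le_add h2 h1

/-- the associated form -/
def w (S : St ι) (i k : ι) : ℤ :=
  (if i ≠ S.c ∧ S.par i = k then 1 else 0) - (if k ≠ S.c ∧ S.par k = i then 1 else 0)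

lemma w_anti (S : St ι) (i k : ι) : S.w k i = - S.w i k := by
  simp only [w]; ring

lemma w_ne (S : St ι) {i k : ι} (h : S.w i k ≠ 0) : S.par i = k ∨ S.par k = i := by
  by_contra hc
  push Not at hc
  apply h
  simp only [w]
  rw [if_neg (fun e => hc.1 e.2), if_neg (fun e => hc.2 e.2), sub_zero]

lemma w_join_ll (S : St ι) (T : St κ) (a a' : ι) :
    (S.join T).w (Sum.inl a) (Sum.inl a') = S.w a a' := by
  simp [w, join, jpar]

lemma w_join_rr (S : St ι) (T : St κ) (b b' : κ) :
    (S.join T).w (Sum.inr b) (Sum.inr b') = T.w b b' := by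
  simp only [w, join, jpar]
  by_cases h : b = T.c <;> by_cases h' : b' = T.c <;> simp [h, h']

lemma w_join_lr (S : St ι) (T : St κ) (a : ι) (b : κ) :
    (S.join T).w (Sum.inl a) (Sum.inr b) = if a = S.c ∧ b = T.c then -1 else 0 := by
  simp only [w, join, jpar]
  by_cases h : b = T.c
  · by_cases h' : a = S.c
    · simp [h, h']
    · simp [h, h', Ne.symm h']
  · simp [h]

end St

/-- relabelling -/
def LT.map {α β : Type} (f : α → β) : LT α → LT β
  | .leaf i => .leaf (f i)
  | .node u v => .node (LT.map f u) (LT.map f v)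

section map

variable {α β : Type} [DecidableEq α] [DecidableEq β] (f : α → β)

lemma shape_map (t : LT α) : (t.map f).shape = t.shape := by
  induction t with
  | leaf i => rfl
  | node u v hu hv => simp [LT.map, LT.shape, hu, hv]

lemma supp_map (t : LT α) : (t.map f).supp = t.supp.image f := by
  induction t with
  | leaf i => simp [LT.map, LT.supp]
  | node u v hu hv => simp only [LT.map, LT.supp, hu, hv, Finset.image_union]

lemma lk_image (hf : Function.Injective f) (w : α → α → ℤ) (w' : β → β → ℤ)
    (h : ∀ a a', w' (f a) (f a') = w a a') (P Q : Finset α) :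
    lk w' (P.image f) (Q.image f) = lk w P Q := by
  simp only [lk]
  rw [Finset.sum_image (fun x _ y _ e => hf e)]
  refine Finset.sum_congr rfl fun a _ => ?_
  rw [Finset.sum_image (fun x _ y _ e => hf e)]
  exact Finset.sum_congr rfl fun a' _ => h a a'

lemma good_map (hf : Function.Injective f) (w : α → α → ℤ) (w' : β → β → ℤ)
    (h : ∀ a a', w' (f a) (f a') = w a a') (t : LT α) (ht : t.Good w) : (t.map f).Good w' := by
  induction t with
  | leaf i => trivial
  | node u v hu hv =>
    obtain ⟨gu, gv, hd, hl⟩ := ht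
    refine ⟨hu gu, hv gv, ?_, ?_⟩
    · rw [supp_map, supp_map]
      exact (Finset.disjoint_image hf).2 hd
    · rw [supp_map, supp_map, lk_image f hf w w' h]
      exact hl

end map

lemma lk_comm {ι : Type} [DecidableEq ι] (w : ι → ι → ℤ) (hw : ∀ i k, w k i = - w i k)
    (P Q : Finset ι) : lk w Q P = - lk w P Q := by
  simp only [lk]
  rw [Finset.sum_comm, ← Finset.sum_neg_distrib]
  refine Finset.sum_congr rfl fun i _ => ?_
  rw [← Finset.sum_neg_distrib]
  exact Finset.sum_congr rfl fun k _ => hw i k

/-- a model of a bracket structure -/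
structure Model (s : Br) where
  ι : Type
  dec : DecidableEq ι
  fin : Fintype ι
  S : St ι
  t : LT ι
  shape : t.shape = s
  good : t.Good S.w
  supp : t.supp = Finset.univ
  hD : ∀ k, S.D k ≤ N k s
  hc : Fintype.card ι = s.deg

lemma lk_join {ι κ : Type} [DecidableEq ι] [Fintype ι] [DecidableEq κ] [Fintype κ]
    (S : St ι) (T : St κ) :
    lk (S.join T).w (Finset.univ.image Sum.inl) (Finset.univ.image Sum.inr) = -1 := by
  simp only [lk]
  rw [Finset.sum_image (fun x _ y _ e => Sum.inl_injective e)]
  rw [Finset.sum_eq_single S.c]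
  · rw [Finset.sum_image (fun x _ y _ e => Sum.inr_injective e)]
    rw [Finset.sum_eq_single T.c]
    · rw [St.w_join_lr, if_pos ⟨rfl, rfl⟩]
    · intro b _ hb
      rw [St.w_join_lr, if_neg (fun e => hb e.2)]
    · intro h; exact absurd (Finset.mem_univ _) h
  · intro a _ ha
    rw [Finset.sum_image (fun x _ y _ e => Sum.inr_injective e)]
    refine Finset.sum_eq_zero fun b _ => ?_
    rw [St.w_join_lr, if_neg (fun e => ha e.1)]
  · intro h; exact absurd (Finset.mem_univ _) h

lemma disj_lr {ι κ : Type} [DecidableEq ι] [DecidableEq κ] (P : Finset ι) (Q : Finset κ) :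
    Disjoint (P.image (Sum.inl : ι → ι ⊕ κ)) (Q.image (Sum.inr : κ → ι ⊕ κ)) := by
  rw [Finset.disjoint_left]
  intro x hx hy
  obtain ⟨a, _, rfl⟩ := Finset.mem_image.1 hx
  obtain ⟨b, _, e⟩ := Finset.mem_image.1 hy
  cases e

lemma univ_lr {ι κ : Type} [DecidableEq ι] [DecidableEq κ] [Fintype ι] [Fintype κ] :
    (Finset.univ.image (Sum.inl : ι → ι ⊕ κ)) ∪ (Finset.univ.image (Sum.inr : κ → ι ⊕ κ)) =
      Finset.univ := by
  ext x
  rcases x with a | b <;> simp

theorem exists_model (s : Br) : Nonempty (Model s) := by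
  induction s with
  | leaf =>
    refine ⟨⟨Unit, inferInstance, inferInstance, St.pt, .leaf (), rfl, trivial, rfl, ?_, rfl⟩⟩
    intro k
    simp only [St.D, N]
    rw [Finset.card_eq_zero.2]
    rw [Finset.filter_eq_empty_iff]
    intro y _ h
    exact h.1 rfl
  | node l r hl hr =>
    obtain ⟨A⟩ := hl
    obtain ⟨B⟩ := hr
    letI := A.dec
    letI := A.fin
    letI := B.dec
    letI := B.fin
    have gA := good_map (Sum.inl : A.ι → A.ι ⊕ B.ι) Sum.inl_injective A.S.w (A.S.join B.S).w
      (St.w_join_ll A.S B.S) A.t A.good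
    have gB := good_map (Sum.inr : B.ι → A.ι ⊕ B.ι) Sum.inr_injective B.S.w (A.S.join B.S).w
      (St.w_join_rr A.S B.S) B.t B.good
    have gA' := good_map (Sum.inr : A.ι → B.ι ⊕ A.ι) Sum.inr_injective A.S.w (B.S.join A.S).w
      (St.w_join_rr B.S A.S) A.t A.good
    have gB' := good_map (Sum.inl : B.ι → B.ι ⊕ A.ι) Sum.inl_injective B.S.w (B.S.join A.S).w
      (St.w_join_ll B.S A.S) B.t B.good
    have cA := A.hc
    have cB := B.hc
    by_cases h : r.deg ≤ l.deg
    · refine ⟨⟨A.ι ⊕ B.ι, inferInstance, inferInstance, A.S.join B.S,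
        .node (A.t.map Sum.inl) (B.t.map Sum.inr), ?_, ?_, ?_, ?_, ?_⟩⟩
      · simp [LT.shape, shape_map, A.shape, B.shape]
      · refine ⟨gA, gB, ?_, ?_⟩
        · rw [supp_map, supp_map]; exact disj_lr _ _
        · rw [supp_map, supp_map, A.supp, B.supp, lk_join]; norm_num
      · rw [LT.supp, supp_map, supp_map, A.supp, B.supp]; exact univ_lr
      · intro k
        have h1 := St.D_join A.S B.S k (by omega)
        have h2 := A.hD k
        have h3 := B.hD k
        rw [cA, cB] at h1
        simp only [N]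
        omega
      · rw [Fintype.card_sum, cA, cB, deg]
    · refine ⟨⟨B.ι ⊕ A.ι, inferInstance, inferInstance, B.S.join A.S,
        .node (A.t.map Sum.inr) (B.t.map Sum.inl), ?_, ?_, ?_, ?_, ?_⟩⟩
      · simp [LT.shape, shape_map, A.shape, B.shape]
      · refine ⟨gA', gB', ?_, ?_⟩
        · rw [supp_map, supp_map]; exact (disj_lr _ _).symm
        · rw [supp_map, supp_map, A.supp, B.supp, lk_comm _ (fun i k => St.w_anti _ i k), lk_join]
          norm_num
      · rw [LT.supp, supp_map, supp_map, A.supp, B.supp, Finset.union_comm]; exact univ_lr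
      · intro k
        have h1 := St.D_join B.S A.S k (by omega)
        have h2 := A.hD k
        have h3 := B.hD k
        rw [cA, cB] at h1
        simp only [N]
        have e : (if k ≤ r.deg ∧ k ≤ l.deg then 1 else 0) = (if k ≤ l.deg ∧ k ≤ r.deg then 1 else 0) := by
          simp only [and_comm]
        omega
      · rw [Fintype.card_sum, cA, cB, deg, add_comm]

/-- one centre -/
def St.F {ι : Type} [DecidableEq ι] [Fintype ι] (S : St ι) : Fst ι {S.c} where
  par := S.par
  desc := S.desc
  rk := S.rk
  self_mem := S.self_mem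
  desc_par := fun i y hi hy => S.desc_par i y (by simpa using hi)
  rk_lt := fun i hi => S.rk_lt i (by simpa using hi)

lemma St.adj {ι : Type} [DecidableEq ι] [Fintype ι] (S : St ι) : Adj S.F S.w := by
  intro i k h
  exact Or.inr (Or.inr (S.w_ne h))

lemma fk_univ {ι : Type} [DecidableEq ι] [Fintype ι] (S : St ι) (k : ℕ) :
    fk S.F k Finset.univ = S.D k := by
  simp [fk, St.D, St.F]

theorem N_le (K : Type u) [Field K] {s t : Br} (h : EquivId K s t) (hd : s.deg = t.deg) (k : ℕ) :
    N k t ≤ N k s := by
  obtain ⟨A⟩ := exists_model s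
  letI := A.dec
  letI := A.fin
  obtain ⟨b, e, g, sb⟩ := test K A.S.w (fun i k => St.w_anti _ i k) h (by rw [A.hc, hd]) A.t
    A.good A.shape
  have h1 := count A.S.F A.S.adj k b g
  have h2 := cn_eq (Z := {A.S.c}) k b g (by
    refine (Finset.card_le_card Finset.inter_subset_right).trans ?_
    simp)
  rw [sb, fk_univ] at h1
  rw [e] at h2
  have := A.hD k
  omega

theorem N_eq (K : Type u) [Field K] {s t : Br} (h : EquivId K s t) (hd : s.deg = t.deg) (k : ℕ) :
    N k s = N k t :=
  le_antisymm (N_le K (fun A _ _ => (h A).symm) hd.symm k) (N_le K h hd k)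

end Pool.Agent.R192.LM
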